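import Pool.Agent.W416.Cusp.Seed4

set_option autoImplicit false

namespace Pool.Agent.W416.Cusp

open MvPolynomial

/-- Degree bound. -/
def Dg (P : MvPolynomial (Fin 2) ℝ) (n : ℕ) : Prop := P.totalDegree ≤ n

theorem Dg.add {P Q : MvPolynomial (Fin 2) ℝ} {n : ℕ} (hP : Dg P n) (hQ : Dg Q n) :
    Dg (P + Q) n := (totalDegree_add _ _).trans (max_le hP hQ)

theorem Dg.sub {P Q : MvPolynomial (Fin 2) ℝ} {n : ℕ} (hP : Dg P n) (hQ : Dg Q n) :
    Dg (P - Q) n := (totalDegree_sub _ _).trans (max_le hP hQ)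

theorem Dg.mul {P Q : MvPolynomial (Fin 2) ℝ} {n m : ℕ} (hP : Dg P n) (hQ : Dg Q m) :
    Dg (P * Q) (n + m) := (totalDegree_mul _ _).trans (Nat.add_le_add hP hQ)

theorem Dg.pow {P : MvPolynomial (Fin 2) ℝ} {n : ℕ} (hP : Dg P n) (k : ℕ) :
    Dg (P ^ k) (k * n) := (totalDegree_pow _ _).trans (Nat.mul_le_mul_left _ hP)

theorem Dg.C (a : ℝ) : Dg (C a) 0 := by
  unfold Dg
  rw [totalDegree_C]

theorem Dg.ofNat (n : ℕ) [n.AtLeastTwo] : Dg (OfNat.ofNat n : MvPolynomial (Fin 2) ℝ) 0 := by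
  have : (OfNat.ofNat n : MvPolynomial (Fin 2) ℝ) = MvPolynomial.C (OfNat.ofNat n : ℝ) := by
    rw [map_ofNat]
  rw [this]
  exact Dg.C _

theorem Dg.X (i : Fin 2) : Dg (X i) 1 := by
  unfold Dg
  rw [totalDegree_X]

theorem Dg.mono {P : MvPolynomial (Fin 2) ℝ} {n m : ℕ} (hP : Dg P n) (h : n ≤ m) : Dg P m :=
  hP.trans h

theorem Dg.lin (a b d : ℝ) : Dg (lin a b d) 1 :=
  (((Dg.C a).mul (Dg.X 1)).add ((Dg.C b).mul (Dg.X 0))).add ((Dg.C d).mono (by norm_num))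

theorem Dg.PF {x Y z : MvPolynomial (Fin 2) ℝ} (hx : Dg x 1) (hY : Dg Y 2) (hz : Dg z 1) :
    Dg (PF x Y z) 5 := by
  unfold Pool.Agent.W416.Cusp.PF
  have hN : Dg (x ^ 2 + Y) 2 := (hx.pow 2).add hY
  refine Dg.sub (Dg.add (Dg.sub (Dg.add (Dg.sub ?_ ?_) ?_) ?_) ?_) ?_
  · exact (Dg.ofNat 8).mul (hx.pow 5)
  · exact ((Dg.ofNat 80).mul (hx.pow 3)).mul hY
  · exact ((Dg.ofNat 40).mul hx).mul (hY.pow 2)
  · exact ((Dg.ofNat 15).mul (hN.pow 2)).mul hz
  · exact ((Dg.ofNat 10).mul hN).mul (hz.pow 3)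
  · exact (Dg.ofNat 3).mul (hz.pow 5)

theorem Dg.FF (c μ g : ℝ) : Dg (FF c μ g) 5 :=
  Dg.PF (Dg.lin _ _ _) ((Dg.C _).mul ((Dg.lin _ _ _).pow 2)) (Dg.lin _ _ _)

theorem seed : ∃ (F : MvPolynomial (Fin 2) ℝ) (f : Fin 5 → ℝ × ℝ) (g : Bool → ℝ) (y : ℝ),
    Good F f g ∧ (∀ i, 0 < (f i).1) ∧ (∀ k, 0 < g k) ∧ 0 < y ∧ LineAt F y ∧
    F.totalDegree ≤ 5 := by
  obtain ⟨c, x, μ, G, Y0, Y1, Y2, h⟩ := exists_data
  obtain ⟨s, p, hp, hsp⟩ := exists_five h
  have hc := h.hc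
  have c1 := h.c1
  have c2 := h.c2
  have x1 := h.x1
  have x2 := h.x2
  have m1 := h.m1
  have m2 := h.m2
  have mx := h.mx
  have g1 := h.g1
  have g2 := h.g2
  have hG : 0 < G := by linarith
  have hc1 : 1 - c ≠ 0 := by
    apply ne_of_gt
    linarith
  have hcμ : c * μ < 0 := mul_neg_of_neg_of_pos (by linarith) (by linarith)
  have hcx : c * x < 0 := mul_neg_of_neg_of_pos (by linarith) (by linarith)
  have hμ : 3 / 8 - c * μ ≠ 0 := by
    apply ne_of_gt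
    linarith
  -- the quadratic for the contact points
  obtain ⟨E, hE⟩ : ∃ E, E = (x - μ) * (25 * G) := ⟨_, rfl⟩
  obtain ⟨k, hk⟩ : ∃ k, k = 3 / 8 - c * x := ⟨_, rfl⟩
  have E0 : 0 < E := by
    rw [hE]
    exact mul_pos (by linarith) (by linarith)
  have k0 : 0 < k := by linarith
  obtain ⟨a, ha⟩ : ∃ a, a = (x - μ) * (25 * G - 1) + 10 * k := ⟨_, rfl⟩
  obtain ⟨b, hb⟩ : ∃ b, b = -(x - μ) * (25 * G) - 5 * k := ⟨_, rfl⟩
  have a0 : 0 < a := by
    rw [ha]
    have : 0 < (x - μ) * (25 * G - 1) := mul_pos (by linarith) (by linarith)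
    linarith
  have b0 : b < 0 := by
    rw [hb]
    linarith
  have hΔ : 0 < b ^ 2 - a * E := by
    have : b ^ 2 - a * E = 25 * k ^ 2 + (x - μ) * E := by
      rw [ha, hb, hE]
      ring
    rw [this]
    have : 0 < (x - μ) * E := mul_pos (by linarith) E0
    positivity
  have hS := Real.sq_sqrt hΔ.le
  have hS0 := Real.sqrt_pos.2 hΔ
  have hSb : √(b ^ 2 - a * E) < -b := by
    rw [Real.sqrt_lt' (by linarith)]
    have := mul_pos a0 E0
    linarith
  have contact : ∀ τ, 0 < τ → (a * τ + b) ^ 2 = b ^ 2 - a * E →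
      ContactAt (FF c μ (25 * G)) τ := by
    intro τ hτ hq
    refine contact_seed h hτ ?_ ?_
    · rw [← hE, ← hk, ← ha, show -(x - μ) * (25 * G) - 5 * k = b from hb.symm]
      refine mul_left_cancel₀ a0.ne' ?_
      linear_combination hq
    · rw [← hk, ← ha, show -(x - μ) * (25 * G) - 5 * k = b from hb.symm]
      intro h0
      rw [h0] at hq
      linarith
  refine ⟨FF c μ (25 * G), fun i => rt (s i) (p i),
    fun t => if t then (-b + √(b ^ 2 - a * E)) / a else (-b - √(b ^ 2 - a * E)) / a,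
    25 * G / (25 * G - 5 * c), ⟨?_, ?_, ?_, ?_, ?_⟩, ?_, ?_, ?_, ?_, Dg.FF _ _ _⟩
  · intro i j hij
    apply hp.injective
    have := congrArg (fun q : ℝ × ℝ => q.1 * q.2) hij
    simp only [rt_prod (hsp _).d0] at this
    exact this
  · intro t t' htt
    have hne : (-b + √(b ^ 2 - a * E)) / a ≠ (-b - √(b ^ 2 - a * E)) / a := by
      intro h0
      rw [div_left_inj' a0.ne'] at h0
      linarith
    cases t <;> cases t'
    · rfl
    · exact absurd htt.symm hne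
    · exact absurd htt hne
    · rfl
  · exact fun i => rt_lt (hsp i).d0
  · intro i
    rw [rt_sum, rt_prod (hsp i).d0]
    exact (hsp i).cusp
  · intro t
    cases t
    · simp only [Bool.false_eq_true, if_false]
      refine contact _ (div_pos (by linarith) a0) ?_
      rw [mul_div_cancel₀ _ a0.ne']
      linear_combination hS
    · simp only [if_true]
      refine contact _ (div_pos (by linarith) a0) ?_
      rw [mul_div_cancel₀ _ a0.ne']
      linear_combination hS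
  · exact fun i => rt_pos (hsp i).d0 (hsp i).s0 (hsp i).p0
  · intro t
    cases t
    · exact div_pos (by linarith) a0
    · exact div_pos (by linarith) a0
  · exact div_pos (by linarith) (by linarith)
  · exact line_seed hc hc1 (by linarith : (0 : ℝ) < 25 * G).ne' hμ
      (by linarith : (0 : ℝ) < 25 * G - 5 * c).ne'

theorem main : ¬ (∀ ε : ℝ, 0 < ε → ∃ N : ℕ, ∀ d : ℕ, N ≤ d →
      ∀ f : MvPolynomial (Fin 2) ℝ, f.totalDegree = d →
      ∀ S : Finset (Fin 2 → ℝ), (∀ p ∈ S, IsCusp f p) →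
        (S.card : ℝ) ≤ (1 / 4 + ε) * (d : ℝ) ^ 2) := by
  obtain ⟨F, f, g, y, hG, hf, hg, hy, hl, hd⟩ := seed
  refine main_of_good (hG.step_line hf hg y hy hl) ?_ ?_ ?_
  · refine (totalDegree_comp _ _ 2 (totalDegree_Ph 0)).trans ?_
    omega
  · simp only [Fintype.card_sum, Fintype.card_prod, Fintype.card_bool, Fintype.card_fin]
  · simp only [Fintype.card_prod, Fintype.card_bool]

end Pool.Agent.W416.Cusp
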