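import Mathlib

set_option autoImplicit false

/-!
Cusps of real plane curves through certificates `F = A * l ^ 2 + C * m ^ 3`, and how such
certificates (and the certificates for contact with the conic `s ^ 2 = 4 p` and with the line
`p = 0`) behave under the maps `Sym ^ 2` of `x ↦ x ^ 2 - c`.
-/

namespace Pool.Agent.W416.Cusp

open MvPolynomial

/-- The determinant of the gradients of `l` and `m` at `q`. -/
noncomputable def jac (l m : MvPolynomial (Fin 2) ℝ) (q : Fin 2 → ℝ) : ℝ :=
  eval q (pderiv 0 l) * eval q (pderiv 1 m) - eval q (pderiv 1 l) * eval q (pderiv 0 m)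

/-- `F` has the form `A l ^ 2 + C m ^ 3` with `l, m` local coordinates at `q` and `A, C` not
vanishing at `q`. -/
def CuspAt (F : MvPolynomial (Fin 2) ℝ) (q : Fin 2 → ℝ) : Prop :=
  ∃ A C l m : MvPolynomial (Fin 2) ℝ, F = A * l ^ 2 + C * m ^ 3 ∧ eval q l = 0 ∧ eval q m = 0 ∧
    eval q A ≠ 0 ∧ eval q C ≠ 0 ∧ jac l m q ≠ 0

/-- The conditions of the frozen statement. -/
def IsCusp (f : MvPolynomial (Fin 2) ℝ) (p : Fin 2 → ℝ) : Prop :=
  MvPolynomial.eval p f = 0 ∧
          (∀ i : Fin 2, MvPolynomial.eval p (MvPolynomial.pderiv i f) = 0) ∧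
          (∃ i j : Fin 2,
            MvPolynomial.eval p (MvPolynomial.pderiv i (MvPolynomial.pderiv j f)) ≠ 0) ∧
          (∃ v : Fin 2 → ℝ, v ≠ 0 ∧
            (∀ i : Fin 2, ∑ j : Fin 2,
              MvPolynomial.eval p (MvPolynomial.pderiv i (MvPolynomial.pderiv j f)) * v j = 0) ∧
            (∑ i : Fin 2, ∑ j : Fin 2, ∑ k : Fin 2,
              v i * v j * v k *
                MvPolynomial.eval p (MvPolynomial.pderiv i
                  (MvPolynomial.pderiv j (MvPolynomial.pderiv k f)))) ≠ 0)

theorem CuspAt.isCusp {F : MvPolynomial (Fin 2) ℝ} {q : Fin 2 → ℝ} (h : CuspAt F q) :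
    IsCusp F q := by
  obtain ⟨A, C, l, m, rfl, hl, hm, hA, hC, hj⟩ := h
  have e : A * l ^ 2 + C * m ^ 3 = A * (l * l) + C * (m * (m * m)) := by ring
  rw [e]
  have h2 : ∀ i j : Fin 2, eval q (pderiv i (pderiv j (A * (l * l) + C * (m * (m * m))))) =
      2 * eval q A * eval q (pderiv i l) * eval q (pderiv j l) := by
    intro i j
    simp only [map_add, Derivation.leibniz, smul_eq_mul, map_mul, hl, hm]
    ring
  refine ⟨by simp [hl, hm], ?_, ?_, ?_⟩
  · intro i
    simp only [map_add, Derivation.leibniz, smul_eq_mul, map_mul, hl, hm]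
    ring
  · by_cases h0 : eval q (pderiv 0 l) = 0
    · have h1 : eval q (pderiv 1 l) ≠ 0 := by
        intro h1
        apply hj
        simp [jac, h0, h1]
      refine ⟨1, 1, ?_⟩
      rw [h2]
      positivity
    · refine ⟨0, 0, ?_⟩
      rw [h2]
      positivity
  · refine ⟨![-(eval q (pderiv 1 l)), eval q (pderiv 0 l)], ?_, ?_, ?_⟩
    · intro h0
      apply hj
      have a := congrFun h0 0
      have b := congrFun h0 1
      simp at a b
      simp [jac, a, b]
    · intro i
      simp only [Fin.sum_univ_two, h2]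
      simp
      ring
    · have key : ∑ i : Fin 2, ∑ j : Fin 2, ∑ k : Fin 2,
          (![-(eval q (pderiv 1 l)), eval q (pderiv 0 l)] : Fin 2 → ℝ) i *
          (![-(eval q (pderiv 1 l)), eval q (pderiv 0 l)] : Fin 2 → ℝ) j *
          (![-(eval q (pderiv 1 l)), eval q (pderiv 0 l)] : Fin 2 → ℝ) k *
                eval q (pderiv i (pderiv j (pderiv k (A * (l * l) + C * (m * (m * m)))))) =
          6 * eval q C * (jac l m q) ^ 3 := by
        simp only [Fin.sum_univ_two, map_add, Derivation.leibniz, smul_eq_mul, map_mul, hl, hm,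
          jac, Matrix.cons_val_zero, Matrix.cons_val_one]
        ring
      rw [key]
      positivity

end Pool.Agent.W416.Cusp
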