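import Pool.Agent.W416.Cusp.Root

set_option autoImplicit false

namespace Pool.Agent.W416.Cusp

theorem exists_c : ∃ c : ℝ, 4 * c ^ 2 + 2 * c = 1 ∧ -0.809017 < c ∧ c < -0.809016 := by
  have h5 : √5 ^ 2 = (5 : ℝ) := Real.sq_sqrt (by norm_num)
  refine ⟨-(1 + √5) / 4, by linear_combination (1 / 4) * h5, ?_, ?_⟩
  · have : √5 < 2.236068 := by
      rw [Real.sqrt_lt' (by norm_num)]
      norm_num
    linarith
  · have : 2.236067 < √5 := by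
      apply Real.lt_sqrt_of_sq_lt
      norm_num
    linarith

/-- The numerical data of the seed. -/
structure Data (c x μ G Y0 Y1 Y2 : ℝ) : Prop where
  hc : 4 * c ^ 2 + 2 * c = 1
  c1 : -0.809017 < c
  c2 : c < -0.809016
  x1 : 0.3425 < x
  x2 : x < 0.3428
  m1 : 0.327 < μ
  m2 : μ < 0.33
  mx : μ < x
  g1 : 390 < G
  g2 : G < 410
  P0 : 8*x^5 - 80*Y0*x^3 - 15*x^4 - 30*Y0*x^2 + 40*Y0^2*x - 15*Y0^2 + 10*x^2 + 10*Y0 - 3 = 0
  P1 : -80*Y1*x^3 + 40*x^4 + 80*Y0*Y1*x - 240*Y0*x^2 - 30*Y1*x^2 - 60*x^3 - 30*Y0*Y1 - 60*Y0*x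
    + 40*Y0^2 + 10*Y1 + 20*x = 0
  P2 : -80*Y2*x^3 + 80*Y0*Y2*x - 240*Y1*x^2 + 40*Y1^2*x - 30*Y2*x^2 + 80*x^3 + 80*Y0*Y1
    - 30*Y0*Y2 - 240*Y0*x - 60*Y1*x - 15*Y1^2 - 90*x^2 - 30*Y0 + 10*Y2 + 10 = 0
  P3 : 80*Y1*Y2*x - 240*Y2*x^2 + 80*Y0*Y2 - 30*Y1*Y2 - 240*Y1*x + 40*Y1^2 - 60*Y2*x + 80*x^2
    - 80*Y0 - 30*Y1 - 60*x ≠ 0
  E0 : (3 + 2 * c) / 4 * Y0 = (3 / 8 - c * x) ^ 2 + G * (x - μ) ^ 2
  E1 : (3 + 2 * c) / 4 * Y1 = -2 * c * (3 / 8 - c * x) + 2 * G * (x - μ)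
  E2 : (3 + 2 * c) / 4 * Y2 = c ^ 2 + G
  nA : (8 * x - 3) * Y0 - (8 * x ^ 3 + 3 * x ^ 2 - 1) ≠ 0

theorem exists_data : ∃ c x μ G Y0 Y1 Y2 : ℝ, Data c x μ G Y0 Y1 Y2 := by
  obtain ⟨c, hc, c1, c2⟩ := exists_c
  obtain ⟨x, r, Y0, Y1, Y2, x1, x2, r1, r2, hr, h0, h1, h2, hR⟩ := exists_root hc c1 c2
  have d1 : -0.26 < 8 * x - 3 := by linarith
  have d2 : 8 * x - 3 < -0.2576 := by linarith
  have hd : 8 * x - 3 ≠ 0 := by
    apply ne_of_lt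
    linarith
  have r3a : 0.1757 ^ 3 ≤ r ^ 3 := pow_le_pow_left₀ (by norm_num) r1 3
  have r3b : r ^ 3 ≤ 0.1762 ^ 3 := pow_le_pow_left₀ (by linarith) r2 3
  have x2a : 0.3425 ^ 2 ≤ x ^ 2 := pow_le_pow_left₀ (by norm_num) x1.le 2
  have x2b : x ^ 2 ≤ 0.3428 ^ 2 := pow_le_pow_left₀ (by linarith) x2.le 2
  have x3a : 0.3425 ^ 3 ≤ x ^ 3 := pow_le_pow_left₀ (by norm_num) x1.le 3
  have x3b : x ^ 3 ≤ 0.3428 ^ 3 := pow_le_pow_left₀ (by linarith) x2.le 3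
  have d0 : 0 ≤ 3 - 8 * x := by linarith
  have r2a : 0.1757 ^ 2 ≤ r ^ 2 := pow_le_pow_left₀ (by norm_num) r1 2
  have r2b : r ^ 2 ≤ 0.1762 ^ 2 := pow_le_pow_left₀ (by linarith) r2 2
  have Y0a : 1.459 < Y0 := by
    by_contra h
    push Not at h
    linarith [mul_nonneg (sub_nonneg.2 h) d0]
  have Y0b : Y0 < 1.481 := by
    by_contra h
    push Not at h
    linarith [mul_nonneg (sub_nonneg.2 h) d0]
  have ra : 0.1757 * 2.37 ≤ r * (4 * x + 1) := mul_le_mul r1 (by linarith) (by norm_num)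
    (by linarith)
  have rb : r * (4 * x + 1) ≤ 0.1762 * 2.3712 := mul_le_mul r2 (by linarith) (by linarith)
    (by norm_num)
  have Y1a : 35.7 < Y1 := by
    by_contra h
    push Not at h
    linarith [mul_nonneg (sub_nonneg.2 h) d0]
  have Y1b : Y1 < 36.9 := by
    by_contra h
    push Not at h
    linarith [mul_nonneg (sub_nonneg.2 h) d0]
  have rpos : 0 < r := by linarith
  obtain ⟨w, hw⟩ : ∃ w, w = (8 * x - 3) * Y2 + 8 * Y1 - 24 * x - 3 := ⟨_, rfl⟩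
  rw [← hw] at h2
  have w1 : w < -21.2 := by
    by_contra h
    push Not at h
    linarith [mul_nonneg (sub_nonneg.2 h) rpos.le]
  have w2 : -21.4 < w := by
    by_contra h
    push Not at h
    linarith [mul_nonneg (sub_nonneg.2 h) rpos.le]
  have Y2a : 1135 < Y2 := by
    by_contra h
    push Not at h
    linarith [mul_nonneg (sub_nonneg.2 h) d0]
  have Y2b : Y2 < 1186 := by
    by_contra h
    push Not at h
    linarith [mul_nonneg (sub_nonneg.2 h) d0]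
  obtain ⟨S, hS⟩ : ∃ S, S = (3 + 2 * c) / 4 := ⟨_, rfl⟩
  have S1 : 0.3454 < S := by linarith
  have S2 : S < 0.3455 := by linarith
  rw [← hS] at hR
  obtain ⟨G, hG⟩ : ∃ G, G = S * Y2 - c ^ 2 := ⟨_, rfl⟩
  have cc : c ^ 2 = (1 - 2 * c) / 4 := by linarith
  have g1 : 390 < G := by
    rw [hG, cc]
    linarith [mul_pos (sub_pos.2 S1) (sub_pos.2 Y2a)]
  have Y2p : 0 < Y2 := by linarith
  have g2 : G < 410 := by
    rw [hG, cc]
    linarith [mul_pos (sub_pos.2 S2) Y2p]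
  obtain ⟨L, hL⟩ : ∃ L, L = S * Y1 + 2 * c * (3 / 8 - c * x) := ⟨_, rfl⟩
  have hL2 : L = S * Y1 + 3 / 4 * c - x / 2 + c * x := by
    rw [hL]
    linear_combination (-x / 2) * hc
  have hx0 : 0 ≤ x := by linarith
  have hcx1 : -0.809017 * 0.3428 ≤ c * x := by
    linarith [mul_nonneg (sub_nonneg.2 c1.le) hx0]
  have hcx2 : c * x ≤ -0.809016 * 0.3425 := by
    linarith [mul_nonneg (sub_nonneg.2 c2.le) hx0]
  have Y1p : 0 < Y1 := by linarith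
  have L1 : 11.2 < L := by
    rw [hL2]
    linarith [mul_pos (sub_pos.2 S1) (sub_pos.2 Y1a)]
  have L2 : L < 11.8 := by
    rw [hL2]
    linarith [mul_pos (sub_pos.2 S2) Y1p]
  have G0 : 0 < G := by linarith
  obtain ⟨e, he⟩ : ∃ e, e = L / (2 * G) := ⟨_, rfl⟩
  have he2 : 2 * G * e = L := by
    rw [he]
    field_simp
  have e1 : 0.0136 < e := by
    by_contra h
    push Not at h
    linarith [mul_nonneg (sub_nonneg.2 h) G0.le]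
  have e2 : e < 0.0152 := by
    by_contra h
    push Not at h
    linarith [mul_nonneg (sub_nonneg.2 h) G0.le]
  rw [← hG, ← hL] at hR
  have hK : G * e ^ 2 = S * Y0 - (3 / 8 - c * x) ^ 2 := by
    have : 4 * G * (G * e ^ 2) = 4 * G * (S * Y0 - (3 / 8 - c * x) ^ 2) := by
      rw [hR]
      linear_combination (2 * G * e + L) * he2
    exact mul_left_cancel₀ (mul_ne_zero four_ne_zero G0.ne') this
  have P0 : 8*x^5 - 80*Y0*x^3 - 15*x^4 - 30*Y0*x^2 + 40*Y0^2*x - 15*Y0^2 + 10*x^2 + 10*Y0 - 3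
      = 0 := by
    refine mul_left_cancel₀ hd ?_
    linear_combination 5 * ((8 * x - 3) * Y0 - (8 * x ^ 3 + 3 * x ^ 2 - 1) - 10 * r ^ 3) * h0 +
      4 * ((4 * x ^ 2 + 2 * x - 1) ^ 2 + 5 * r ^ 2 * (4 * x ^ 2 + 2 * x - 1) + 25 * r ^ 4) * hr
  have P1 : -80*Y1*x^3 + 40*x^4 + 80*Y0*Y1*x - 240*Y0*x^2 - 30*Y1*x^2 - 60*x^3 - 30*Y0*Y1
      - 60*Y0*x + 40*Y0^2 + 10*Y1 + 20*x = 0 := by
    refine mul_left_cancel₀ hd ?_
    have e : (8 * x - 3) * (-80*Y1*x^3 + 40*x^4 + 80*Y0*Y1*x - 240*Y0*x^2 - 30*Y1*x^2 - 60*x^3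
        - 30*Y0*Y1 - 60*Y0*x + 40*Y0^2 + 10*Y1 + 20*x) =
        10 * ((8 * x - 3) * Y0 - (8 * x ^ 3 + 3 * x ^ 2 - 1)) *
          ((8 * x - 3) * Y1 + 8 * Y0 - (24 * x ^ 2 + 6 * x)) -
          12 * (4 * x ^ 2 + 2 * x - 1) ^ 2 * (8 * x + 2) := by
      linear_combination (-8) * P0
    have w0 : (8 * x - 3) * Y0 - (8 * x ^ 3 + 3 * x ^ 2 - 1) = -10 * r ^ 3 := by
      linear_combination h0
    have w1 : (8 * x - 3) * Y1 + 8 * Y0 - (24 * x ^ 2 + 6 * x) = -6 * r * (4 * x + 1) := by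
      linear_combination h1
    rw [e, w0, w1, ← hr]
    ring
  have P2 : -80*Y2*x^3 + 80*Y0*Y2*x - 240*Y1*x^2 + 40*Y1^2*x - 30*Y2*x^2 + 80*x^3 + 80*Y0*Y1
      - 30*Y0*Y2 - 240*Y0*x - 60*Y1*x - 15*Y1^2 - 90*x^2 - 30*Y0 + 10*Y2 + 10 = 0 := by
    refine mul_left_cancel₀ hd ?_
    have e : (8 * x - 3) * (-80*Y2*x^3 + 80*Y0*Y2*x - 240*Y1*x^2 + 40*Y1^2*x - 30*Y2*x^2
        + 80*x^3 + 80*Y0*Y1 - 30*Y0*Y2 - 240*Y0*x - 60*Y1*x - 15*Y1^2 - 90*x^2 - 30*Y0 + 10*Y2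
        + 10) =
        5 * (((8 * x - 3) * Y1 + 8 * Y0 - (24 * x ^ 2 + 6 * x)) ^ 2 +
          2 * ((8 * x - 3) * Y0 - (8 * x ^ 3 + 3 * x ^ 2 - 1)) *
          ((8 * x - 3) * Y2 + 8 * Y1 - 24 * x - 3)) -
          4 * (3 * (4 * x ^ 2 + 2 * x - 1) ^ 2 * 4 +
            3 * (4 * x ^ 2 + 2 * x - 1) * (8 * x + 2) ^ 2) := by
      linear_combination (-8) * P1
    have w0 : (8 * x - 3) * Y0 - (8 * x ^ 3 + 3 * x ^ 2 - 1) = -10 * r ^ 3 := by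
      linear_combination h0
    have w1 : (8 * x - 3) * Y1 + 8 * Y0 - (24 * x ^ 2 + 6 * x) = -6 * r * (4 * x + 1) := by
      linear_combination h1
    rw [e, w0, w1, ← hr, ← hw]
    linear_combination (-100 * r ^ 2) * h2 + (240 * r ^ 2) * hr
  refine ⟨c, x, x - e, G, Y0, Y1, Y2, ?_⟩
  refine ⟨hc, c1, c2, x1, x2, by linarith, by linarith, by linarith, g1, g2, P0, P1, P2, ?_, ?_,
    ?_, ?_, ?_⟩
  · intro P3
    have e : (8 * x - 3) * (80*Y1*Y2*x - 240*Y2*x^2 + 80*Y0*Y2 - 30*Y1*Y2 - 240*Y1*x + 40*Y1^2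
        - 60*Y2*x + 80*x^2 - 80*Y0 - 30*Y1 - 60*x) =
        5 * (2 * ((8 * x - 3) * Y0 - (8 * x ^ 3 + 3 * x ^ 2 - 1)) * (8 * Y2 - 8) +
          2 * ((8 * x - 3) * Y1 + 8 * Y0 - (24 * x ^ 2 + 6 * x)) *
          ((8 * x - 3) * Y2 + 8 * Y1 - 24 * x - 3)) -
          4 * ((8 * x + 2) ^ 3 + 24 * (4 * x ^ 2 + 2 * x - 1) * (8 * x + 2)) := by
      linear_combination (-8) * P2
    have w0 : (8 * x - 3) * Y0 - (8 * x ^ 3 + 3 * x ^ 2 - 1) = -10 * r ^ 3 := by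
      linear_combination h0
    have w1 : (8 * x - 3) * Y1 + 8 * Y0 - (24 * x ^ 2 + 6 * x) = -6 * r * (4 * x + 1) := by
      linear_combination h1
    rw [P3, w0, w1, ← hr, ← hw] at e
    have e' : 0 = -800 * (r ^ 3 * (Y2 - 1)) + 60 * (4 * x + 1) * (3 + 24 * r ^ 2) -
        4 * (8 * (4 * x + 1) ^ 3 + 240 * r ^ 2 * (4 * x + 1)) := by
      linear_combination e + (-60 * (4 * x + 1)) * h2
    have b1 : 0.1757 ^ 3 * 1134 ≤ r ^ 3 * (Y2 - 1) :=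
      mul_le_mul r3a (by linarith) (by norm_num) (by positivity)
    have b2 : (4 * x + 1) * (3 + 24 * r ^ 2) ≤ 2.3712 * (3 + 24 * 0.1762 ^ 2) := by
      exact mul_le_mul (by linarith) (by linarith) (by positivity) (by norm_num)
    have b3 : 0 ≤ (4 * x + 1) ^ 3 := by positivity
    have b4 : 0 ≤ r ^ 2 * (4 * x + 1) := by positivity
    linarith
  · rw [← hS]
    linear_combination -hK
  · rw [← hS]
    linear_combination -he2 - hL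
  · rw [← hS]
    linear_combination -hG
  · intro h
    have : r ^ 3 = 0 := by linear_combination (-1 / 10) * h + (1 / 10) * h0
    have h3 := pow_eq_zero_iff (n := 3) (by norm_num) |>.1 this
    linarith

end Pool.Agent.W416.Cusp
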