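import Pool.Agent.W416.Cusp.Tower

set_option autoImplicit false

namespace Pool.Agent.W416.Cusp

open MvPolynomial

theorem pt_injOn {a b c d : ℝ} (h1 : a < b) (h2 : c < d)
    (h : pt (a + b) (a * b) = pt (c + d) (c * d)) : (a, b) = (c, d) := by
  have e1 : a + b = c + d := congrFun h 0
  have e2 : a * b = c * d := congrFun h 1
  have e3 : (a - b) ^ 2 = (c - d) ^ 2 := by
    linear_combination (a + b + c + d) * e1 - 4 * e2
  have e4 : (a - b - (c - d)) * (a - b + (c - d)) = 0 := by linear_combination e3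
  rcases mul_eq_zero.1 e4 with h | h
  · apply Prod.ext <;> simp only <;> linarith
  · exfalso
    linarith

theorem main_of_good {F : MvPolynomial (Fin 2) ℝ} {ι κ : Type} [Fintype ι] [Fintype κ]
    {f : ι → ℝ × ℝ} {g : κ → ℝ} (h : Good F f g) (hd : F.totalDegree ≤ 10)
    (hι : Fintype.card ι = 24) (hκ : Fintype.card κ = 4) :
    ¬ (∀ ε : ℝ, 0 < ε → ∃ N : ℕ, ∀ d : ℕ, N ≤ d →
      ∀ f : MvPolynomial (Fin 2) ℝ, f.totalDegree = d →
      ∀ S : Finset (Fin 2 → ℝ), (∀ p ∈ S, IsCusp f p) →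
        (S.card : ℝ) ≤ (1 / 4 + ε) * (d : ℝ) ^ 2) := by
  classical
  intro H
  obtain ⟨N, hN⟩ := H (1 / 1000) (by norm_num)
  obtain ⟨F', ι', κ', i1, i2, f', g', h', hd', hk, he⟩ := tower h (N + 2)
  have hdeg : N ≤ F'.totalDegree := by
    have h1 := card_le_of_good h'
    rw [hk, hκ] at h1
    have h2 : N + 2 < 2 ^ (N + 2) := Nat.lt_two_pow_self
    omega
  have hcard : ((Finset.univ.image (fun i => pt ((f' i).1 + (f' i).2)
      ((f' i).1 * (f' i).2))).card : ℝ) = Fintype.card ι' := by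
    rw [Finset.card_image_of_injective, Finset.card_univ]
    intro i j hij
    apply h'.finj
    have := pt_injOn (h'.lt i) (h'.lt j) hij
    exact this
  have key := hN _ hdeg F' rfl (Finset.univ.image (fun i => pt ((f' i).1 + (f' i).2)
      ((f' i).1 * (f' i).2))) (by
    intro p hp
    obtain ⟨i, -, rfl⟩ := Finset.mem_image.1 hp
    exact (h'.cusp i).isCusp)
  rw [hcard] at key
  rw [hk, hι, hκ] at he
  have hx : (4 : ℝ) ≤ 2 ^ (N + 2) := by
    rw [pow_add]
    have : (1 : ℝ) ≤ 2 ^ N := one_le_pow₀ (by norm_num)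
    linarith
  have he' : 2 * (Fintype.card ι' : ℝ) + 2 ^ (N + 2) * 4 = (2 ^ (N + 2)) ^ 2 * 52 := by
    have e4 : (4 : ℝ) ^ (N + 2) = (2 ^ (N + 2)) ^ 2 := by
      rw [← pow_mul, mul_comm (N + 2) 2, pow_mul]
      norm_num
    rw [← e4]
    have := congrArg (Nat.cast : ℕ → ℝ) he
    push_cast at this
    linarith
  have hd2 : (F'.totalDegree : ℝ) ≤ 2 ^ (N + 2) * 10 := by
    have : F'.totalDegree ≤ 2 ^ (N + 2) * 10 := hd'.trans (Nat.mul_le_mul_left _ hd)
    exact_mod_cast this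
  have hd3 : (F'.totalDegree : ℝ) ^ 2 ≤ (2 ^ (N + 2) * 10) ^ 2 := by
    have : (0 : ℝ) ≤ F'.totalDegree := Nat.cast_nonneg _
    gcongr
  nlinarith [key, he', hd3, hx]

end Pool.Agent.W416.Cusp
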