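import Pool.Agent.W416.Cusp.Basic

set_option autoImplicit false

namespace Pool.Agent.W416.Cusp

open MvPolynomial

/-- The point `(s, p)` of the plane. -/
def pt (s p : ℝ) : Fin 2 → ℝ := ![s, p]

@[simp] theorem pt_zero (s p : ℝ) : pt s p 0 = s := rfl
@[simp] theorem pt_one (s p : ℝ) : pt s p 1 = p := rfl

/-- Composition with a polynomial map of the plane. -/
noncomputable def comp (Φ : Fin 2 → MvPolynomial (Fin 2) ℝ) (F : MvPolynomial (Fin 2) ℝ) :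
    MvPolynomial (Fin 2) ℝ := aeval Φ F

theorem pderiv_comp (Φ : Fin 2 → MvPolynomial (Fin 2) ℝ) (F : MvPolynomial (Fin 2) ℝ)
    (i : Fin 2) :
    pderiv i (comp Φ F) = comp Φ (pderiv 0 F) * pderiv i (Φ 0) +
      comp Φ (pderiv 1 F) * pderiv i (Φ 1) := by
  unfold comp
  induction F using MvPolynomial.induction_on with
  | C a => simp [MvPolynomial.algebraMap_eq]
  | add p q hp hq =>
    simp only [map_add, hp, hq]
    ring
  | mul_X p j hp =>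
    simp only [map_mul, Derivation.leibniz, smul_eq_mul, aeval_X, hp, map_add]
    fin_cases j <;> simp [pderiv_X] <;> ring

theorem eval_comp (Φ : Fin 2 → MvPolynomial (Fin 2) ℝ) (F : MvPolynomial (Fin 2) ℝ)
    (q : Fin 2 → ℝ) :
    eval q (comp Φ F) = eval (fun i => eval q (Φ i)) F := by
  unfold comp
  induction F using MvPolynomial.induction_on with
  | C a => simp [MvPolynomial.algebraMap_eq]
  | add p q hp hq => simp only [map_add, hp, hq]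
  | mul_X p j hp => simp only [map_mul, aeval_X, hp, eval_X]

theorem totalDegree_comp (Φ : Fin 2 → MvPolynomial (Fin 2) ℝ) (F : MvPolynomial (Fin 2) ℝ)
    (k : ℕ) (hk : ∀ i, (Φ i).totalDegree ≤ k) :
    (comp Φ F).totalDegree ≤ k * F.totalDegree := by
  unfold comp
  rw [MvPolynomial.aeval_def, MvPolynomial.eval₂_eq]
  refine MvPolynomial.totalDegree_finsetSum_le (fun d hd => ?_)
  refine (MvPolynomial.totalDegree_mul _ _).trans ?_
  have h1 : (algebraMap ℝ (MvPolynomial (Fin 2) ℝ) (coeff d F)).totalDegree = 0 := by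
    rw [MvPolynomial.algebraMap_eq, MvPolynomial.totalDegree_C]
  rw [h1, zero_add]
  refine (MvPolynomial.totalDegree_finsetProd _ _).trans ?_
  have h2 : ∑ i ∈ d.support, (Φ i ^ d i).totalDegree ≤ ∑ i ∈ d.support, d i * k :=
    Finset.sum_le_sum (fun i _ => (MvPolynomial.totalDegree_pow _ _).trans
      (Nat.mul_le_mul_left _ (hk i)))
  refine h2.trans ?_
  rw [← Finset.sum_mul, mul_comm]
  exact Nat.mul_le_mul_left _ (MvPolynomial.le_totalDegree hd)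

theorem comp_mul (Φ : Fin 2 → MvPolynomial (Fin 2) ℝ) (F G : MvPolynomial (Fin 2) ℝ) :
    comp Φ (F * G) = comp Φ F * comp Φ G := by simp [comp]

theorem comp_add (Φ : Fin 2 → MvPolynomial (Fin 2) ℝ) (F G : MvPolynomial (Fin 2) ℝ) :
    comp Φ (F + G) = comp Φ F + comp Φ G := by simp [comp]

theorem comp_pow (Φ : Fin 2 → MvPolynomial (Fin 2) ℝ) (F : MvPolynomial (Fin 2) ℝ) (n : ℕ) :
    comp Φ (F ^ n) = comp Φ F ^ n := by simp [comp]

theorem comp_X (Φ : Fin 2 → MvPolynomial (Fin 2) ℝ) (i : Fin 2) :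
    comp Φ (X i) = Φ i := by simp [comp]

/-- `Sym ^ 2` of the map `x ↦ x ^ 2 - c` in the coordinates `s = x + y`, `p = x y`. -/
noncomputable def Ph (c : ℝ) : Fin 2 → MvPolynomial (Fin 2) ℝ :=
  ![X 0 * X 0 - C 2 * X 1 - C (2 * c),
    X 1 * X 1 - C c * (X 0 * X 0) + C (2 * c) * X 1 + C (c ^ 2)]

theorem Ph_zero (c : ℝ) : Ph c 0 = X 0 * X 0 - C 2 * X 1 - C (2 * c) := rfl
theorem Ph_one (c : ℝ) : Ph c 1 =
    X 1 * X 1 - C c * (X 0 * X 0) + C (2 * c) * X 1 + C (c ^ 2) := rfl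

theorem eval_Ph (c s p : ℝ) : (fun i => eval (pt s p) (Ph c i)) =
    pt (s ^ 2 - 2 * p - 2 * c) (p ^ 2 - c * s ^ 2 + 2 * c * p + c ^ 2) := by
  funext i
  fin_cases i
  · simp [Ph, pt]
    ring
  · simp [Ph, pt]
    ring

theorem pderiv_Ph00 (c : ℝ) : pderiv 0 (Ph c 0) = C 2 * X 0 := by
  rw [Ph_zero]
  simp only [map_sub, Derivation.leibniz, smul_eq_mul, pderiv_X, pderiv_C]
  simp
  rw [show (2 : ℝ) = 1 + 1 by norm_num, C_add, C_1]
  ring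

theorem pderiv_Ph10 (c : ℝ) : pderiv 1 (Ph c 0) = C (-2) := by
  rw [Ph_zero]
  simp only [map_sub, Derivation.leibniz, smul_eq_mul, pderiv_X, pderiv_C]
  simp

theorem pderiv_Ph01 (c : ℝ) : pderiv 0 (Ph c 1) = C (-2 * c) * X 0 := by
  rw [Ph_one]
  simp only [map_sub, map_add, Derivation.leibniz, smul_eq_mul, pderiv_X, pderiv_C]
  simp
  rw [show (2 : ℝ) = 1 + 1 by norm_num, C_add, C_1]
  ring

theorem pderiv_Ph11 (c : ℝ) : pderiv 1 (Ph c 1) = C 2 * X 1 + C (2 * c) := by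
  rw [Ph_one]
  simp only [map_sub, map_add, Derivation.leibniz, smul_eq_mul, pderiv_X, pderiv_C]
  simp
  rw [show (2 : ℝ) = 1 + 1 by norm_num, C_add, C_1]
  ring

theorem eval_pderiv0 (c s p : ℝ) (F : MvPolynomial (Fin 2) ℝ) :
    eval (pt s p) (pderiv 0 (comp (Ph c) F)) =
      eval (pt (s ^ 2 - 2 * p - 2 * c) (p ^ 2 - c * s ^ 2 + 2 * c * p + c ^ 2)) (pderiv 0 F) *
        (2 * s) +
      eval (pt (s ^ 2 - 2 * p - 2 * c) (p ^ 2 - c * s ^ 2 + 2 * c * p + c ^ 2)) (pderiv 1 F) *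
        (-2 * c * s) := by
  rw [pderiv_comp, pderiv_Ph00, pderiv_Ph01, map_add, map_mul, map_mul (eval (pt s p)) (comp _ _),
    eval_comp, eval_comp, eval_Ph]
  simp

theorem eval_pderiv1 (c s p : ℝ) (F : MvPolynomial (Fin 2) ℝ) :
    eval (pt s p) (pderiv 1 (comp (Ph c) F)) =
      eval (pt (s ^ 2 - 2 * p - 2 * c) (p ^ 2 - c * s ^ 2 + 2 * c * p + c ^ 2)) (pderiv 0 F) *
        (-2) +
      eval (pt (s ^ 2 - 2 * p - 2 * c) (p ^ 2 - c * s ^ 2 + 2 * c * p + c ^ 2)) (pderiv 1 F) *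
        (2 * p + 2 * c) := by
  rw [pderiv_comp, pderiv_Ph10, pderiv_Ph11, map_add, map_mul, map_mul (eval (pt s p)) (comp _ _),
    eval_comp, eval_comp, eval_Ph]
  simp

theorem jac_comp (c s p : ℝ) (l m : MvPolynomial (Fin 2) ℝ) :
    jac (comp (Ph c) l) (comp (Ph c) m) (pt s p) =
      jac l m (pt (s ^ 2 - 2 * p - 2 * c) (p ^ 2 - c * s ^ 2 + 2 * c * p + c ^ 2)) *
        (4 * s * p) := by
  unfold jac
  rw [eval_pderiv0, eval_pderiv0, eval_pderiv1, eval_pderiv1]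
  ring

/-- cusps pull back to cusps, away from `s p = 0`. -/
theorem CuspAt.pull {F : MvPolynomial (Fin 2) ℝ} (c s p : ℝ) (hs : s ≠ 0) (hp : p ≠ 0)
    (h : CuspAt F (pt (s ^ 2 - 2 * p - 2 * c) (p ^ 2 - c * s ^ 2 + 2 * c * p + c ^ 2))) :
    CuspAt (comp (Ph c) F) (pt s p) := by
  obtain ⟨A, B, l, m, rfl, hl, hm, hA, hB, hj⟩ := h
  refine ⟨comp (Ph c) A, comp (Ph c) B, comp (Ph c) l, comp (Ph c) m, ?_, ?_, ?_, ?_, ?_, ?_⟩
  · simp only [comp_add, comp_mul, comp_pow]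
  · rwa [eval_comp, eval_Ph]
  · rwa [eval_comp, eval_Ph]
  · rwa [eval_comp, eval_Ph]
  · rwa [eval_comp, eval_Ph]
  · rw [jac_comp]
    positivity

/-- The equation of the conic. -/
noncomputable def Ga : MvPolynomial (Fin 2) ℝ := X 0 ^ 2 - C 4 * X 1

theorem comp_Ga (c : ℝ) : comp (Ph c) Ga = Ga * X 0 ^ 2 := by
  simp only [Ga, comp, map_sub, map_mul, map_pow, aeval_X, Ph_zero, Ph_one, aeval_C,
    MvPolynomial.algebraMap_eq]
  rw [show (4 : ℝ) = 1 + 1 + 1 + 1 by norm_num, show (2 : ℝ) = 1 + 1 by norm_num]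
  simp only [C_add, C_1]
  ring

/-- Contact of order `3` with the conic at the point with parameter `τ`. -/
def ContactAt (F : MvPolynomial (Fin 2) ℝ) (τ : ℝ) : Prop :=
  ∃ A B m : MvPolynomial (Fin 2) ℝ, F = A * Ga + B * m ^ 3 ∧ eval (pt (2 * τ) (τ ^ 2)) m = 0 ∧
    eval (pt (2 * τ) (τ ^ 2)) A ≠ 0 ∧ eval (pt (2 * τ) (τ ^ 2)) B ≠ 0 ∧
    eval (pt (2 * τ) (τ ^ 2)) (pderiv 0 m) + τ * eval (pt (2 * τ) (τ ^ 2)) (pderiv 1 m) ≠ 0

theorem ContactAt.cusp {F : MvPolynomial (Fin 2) ℝ} {τ c a : ℝ} (h : ContactAt F τ)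
    (ha : a ^ 2 = τ + c) (ha0 : a ≠ 0) : CuspAt (comp (Ph c) F) (pt 0 (-a ^ 2)) := by
  obtain ⟨A, B, m, rfl, hm, hA, hB, hj⟩ := h
  have e1 : (0 : ℝ) ^ 2 - 2 * (-a ^ 2) - 2 * c = 2 * τ := by linear_combination 2 * ha
  have e2 : (-a ^ 2) ^ 2 - c * 0 ^ 2 + 2 * c * (-a ^ 2) + c ^ 2 = τ ^ 2 := by
    linear_combination (a ^ 2 - c + τ) * ha
  refine ⟨comp (Ph c) A * Ga, comp (Ph c) B, X 0, comp (Ph c) m, ?_, ?_, ?_, ?_, ?_, ?_⟩
  · simp only [comp_add, comp_mul, comp_pow, comp_Ga]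
    ring
  · simp
  · rwa [eval_comp, eval_Ph, e1, e2]
  · rw [map_mul, eval_comp, eval_Ph, e1, e2]
    refine mul_ne_zero hA ?_
    simp [Ga, ha0]
  · rwa [eval_comp, eval_Ph, e1, e2]
  · unfold jac
    rw [eval_pderiv1, eval_pderiv0, e1, e2]
    simp only [pderiv_X]
    simp
    intro h0
    apply hj
    linear_combination (-1 / 2) * h0 - eval (pt (2 * τ) (τ ^ 2)) ((pderiv 1) m) * ha

theorem ContactAt.pull {F : MvPolynomial (Fin 2) ℝ} {τ c a : ℝ} (h : ContactAt F τ)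
    (ha : a ^ 2 = τ + c) (ha0 : a ≠ 0) : ContactAt (comp (Ph c) F) a := by
  obtain ⟨A, B, m, rfl, hm, hA, hB, hj⟩ := h
  have e1 : (2 * a) ^ 2 - 2 * (a ^ 2) - 2 * c = 2 * τ := by linear_combination 2 * ha
  have e2 : (a ^ 2) ^ 2 - c * (2 * a) ^ 2 + 2 * c * (a ^ 2) + c ^ 2 = τ ^ 2 := by
    linear_combination (a ^ 2 - c + τ) * ha
  refine ⟨comp (Ph c) A * X 0 ^ 2, comp (Ph c) B, comp (Ph c) m, ?_, ?_, ?_, ?_, ?_⟩
  · simp only [comp_add, comp_mul, comp_pow, comp_Ga]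
    ring
  · rwa [eval_comp, eval_Ph, e1, e2]
  · rw [map_mul, eval_comp, eval_Ph, e1, e2]
    refine mul_ne_zero hA ?_
    simp [ha0]
  · rwa [eval_comp, eval_Ph, e1, e2]
  · rw [eval_pderiv1, eval_pderiv0, e1, e2]
    have : eval (pt (2 * τ) (τ ^ 2)) ((pderiv 0) m) * (2 * (2 * a)) +
        eval (pt (2 * τ) (τ ^ 2)) ((pderiv 1) m) * (-2 * c * (2 * a)) +
      a * (eval (pt (2 * τ) (τ ^ 2)) ((pderiv 0) m) * -2 +
        eval (pt (2 * τ) (τ ^ 2)) ((pderiv 1) m) * (2 * a ^ 2 + 2 * c)) =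
        2 * a * (eval (pt (2 * τ) (τ ^ 2)) (pderiv 0 m) +
          τ * eval (pt (2 * τ) (τ ^ 2)) (pderiv 1 m)) := by
      linear_combination 2 * a * eval (pt (2 * τ) (τ ^ 2)) ((pderiv 1) m) * ha
    rw [this]
    positivity

/-- Contact of order `3` with the line `p = 0` at the point `(y, 0)`. -/
def LineAt (F : MvPolynomial (Fin 2) ℝ) (y : ℝ) : Prop :=
  ∃ A B m : MvPolynomial (Fin 2) ℝ, F = A * X 1 + B * m ^ 3 ∧ eval (pt y 0) m = 0 ∧
    eval (pt y 0) A ≠ 0 ∧ eval (pt y 0) B ≠ 0 ∧ eval (pt y 0) (pderiv 0 m) ≠ 0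

theorem LineAt.cusp {F : MvPolynomial (Fin 2) ℝ} {y b : ℝ} (h : LineAt F y)
    (hb : b ^ 2 = y) (hb0 : b ≠ 0) : CuspAt (comp (Ph 0) F) (pt b 0) := by
  obtain ⟨A, B, m, rfl, hm, hA, hB, hj⟩ := h
  have e1 : b ^ 2 - 2 * 0 - 2 * 0 = y := by linear_combination hb
  have e2 : (0 : ℝ) ^ 2 - 0 * b ^ 2 + 2 * 0 * 0 + 0 ^ 2 = 0 := by ring
  have e3 : comp (Ph 0) (X 1) = X 1 ^ 2 := by
    rw [comp_X, Ph_one]
    simp
    ring
  refine ⟨comp (Ph 0) A, comp (Ph 0) B, X 1, comp (Ph 0) m, ?_, ?_, ?_, ?_, ?_, ?_⟩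
  · simp only [comp_add, comp_mul, comp_pow, e3]
  · simp
  · rwa [eval_comp, eval_Ph, e1, e2]
  · rwa [eval_comp, eval_Ph, e1, e2]
  · rwa [eval_comp, eval_Ph, e1, e2]
  · unfold jac
    rw [eval_pderiv1, eval_pderiv0, e1, e2]
    simp only [pderiv_X]
    simp
    exact ⟨hj, hb0⟩

end Pool.Agent.W416.Cusp
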