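import Pool.Agent.W416.Cusp.Pull

set_option autoImplicit false

namespace Pool.Agent.W416.Cusp

open MvPolynomial

/-- `F` has cusps at the points with parameters `{x, y}` for `(x, y)` in the (injective) family
`f`, and contact of order `3` with the conic at the points with parameters in the family `g`. -/
structure Good (F : MvPolynomial (Fin 2) ℝ) {ι κ : Type} (f : ι → ℝ × ℝ) (g : κ → ℝ) : Prop where
  finj : Function.Injective f
  ginj : Function.Injective g
  lt : ∀ i, (f i).1 < (f i).2
  cusp : ∀ i, CuspAt F (pt ((f i).1 + (f i).2) ((f i).1 * (f i).2))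
  contact : ∀ k, ContactAt F (g k)

/-- The four preimages of a pair. -/
noncomputable def lift4 (c : ℝ) (q : ℝ × ℝ) : Bool × Bool → ℝ × ℝ
  | (true, true) => (√(q.1 + c), √(q.2 + c))
  | (true, false) => (-√(q.2 + c), √(q.1 + c))
  | (false, true) => (-√(q.1 + c), √(q.2 + c))
  | (false, false) => (-√(q.2 + c), -√(q.1 + c))

/-- The new family of cusps. -/
noncomputable def nf {ι κ : Type} (c : ℝ) (f : ι → ℝ × ℝ) (g : κ → ℝ) :
    (ι × (Bool × Bool)) ⊕ κ → ℝ × ℝ
  | Sum.inl (i, b) => lift4 c (f i) b
  | Sum.inr k => (-√(g k + c), √(g k + c))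

/-- The new family of contact points. -/
noncomputable def ng {κ : Type} (c : ℝ) (g : κ → ℝ) : κ × Bool → ℝ
  | (k, true) => √(g k + c)
  | (k, false) => -√(g k + c)

theorem pt_eq {s p s' p' : ℝ} (h1 : s = s') (h2 : p = p') : pt s p = pt s' p' := by
  rw [h1, h2]

theorem Good.step {F : MvPolynomial (Fin 2) ℝ} {ι κ : Type} {f : ι → ℝ × ℝ} {g : κ → ℝ}
    (h : Good F f g) (c : ℝ) (hf : ∀ i, 0 < (f i).1 + c) (hg : ∀ k, 0 < g k + c) :
    Good (comp (Ph c) F) (nf c f g) (ng c g) := by
  -- basic facts on square roots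
  have ha : ∀ i, 0 < √((f i).1 + c) := fun i => Real.sqrt_pos.2 (hf i)
  have hab : ∀ i, √((f i).1 + c) < √((f i).2 + c) := fun i =>
    Real.sqrt_lt_sqrt (hf i).le (by linarith [h.lt i])
  have ha2 : ∀ i, √((f i).1 + c) ^ 2 = (f i).1 + c := fun i => Real.sq_sqrt (hf i).le
  have hb2 : ∀ i, √((f i).2 + c) ^ 2 = (f i).2 + c := fun i =>
    Real.sq_sqrt (by linarith [h.lt i, hf i])
  have hk : ∀ k, 0 < √(g k + c) := fun k => Real.sqrt_pos.2 (hg k)
  have hk2 : ∀ k, √(g k + c) ^ 2 = g k + c := fun k => Real.sq_sqrt (hg k).le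
  -- invariants recovering the old data
  refine ⟨?_, ?_, ?_, ?_, ?_⟩
  · intro x y hxy
    rcases x with ⟨i, b⟩ | k <;> rcases y with ⟨j, b'⟩ | l
    · have h1 := ha i
      have h2 := ha j
      have h3 := hab i
      have h4 := hab j
      have key : f i = f j ∧ b = b' := by
        obtain ⟨b1, b2⟩ := b
        obtain ⟨b3, b4⟩ := b'
        have e1 := congrArg Prod.fst hxy
        have e2 := congrArg Prod.snd hxy
        have fin : √((f i).1 + c) = √((f j).1 + c) → √((f i).2 + c) = √((f j).2 + c) →
            f i = f j := by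
          intro u v
          apply Prod.ext
          · have := ha2 i
            rw [u, ha2 j] at this
            linarith
          · have := hb2 i
            rw [v, hb2 j] at this
            linarith
        cases b1 <;> cases b2 <;> cases b3 <;> cases b4 <;>
          simp only [nf, lift4, neg_inj] at e1 e2 <;>
          first
          | exact ⟨fin e1 e2, rfl⟩
          | exact ⟨fin e2 e1, rfl⟩
          | (exfalso; linarith)
      have := h.finj key.1
      rw [this, key.2]
    · exfalso
      have h1 := ha i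
      have h3 := hab i
      obtain ⟨b1, b2⟩ := b
      have e1 := congrArg Prod.fst hxy
      have e2 := congrArg Prod.snd hxy
      cases b1 <;> cases b2 <;> simp only [nf, lift4, neg_inj] at e1 e2 <;> linarith [hk l]
    · exfalso
      have h1 := ha j
      have h3 := hab j
      obtain ⟨b1, b2⟩ := b'
      have e1 := congrArg Prod.fst hxy
      have e2 := congrArg Prod.snd hxy
      cases b1 <;> cases b2 <;> simp only [nf, lift4, neg_inj] at e1 e2 <;> linarith [hk k]
    · have e2 := congrArg Prod.snd hxy
      simp only [nf] at e2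
      have : g k = g l := by
        have := hk2 k
        rw [e2, hk2 l] at this
        linarith
      rw [h.ginj this]
  · intro x y hxy
    obtain ⟨k, b⟩ := x
    obtain ⟨l, b'⟩ := y
    have fin : √(g k + c) = √(g l + c) → k = l := by
      intro u
      apply h.ginj
      have := hk2 k
      rw [u, hk2 l] at this
      linarith
    have h1 := hk k
    have h2 := hk l
    cases b <;> cases b' <;> simp only [ng, neg_inj] at hxy
    · rw [fin hxy]
    · exfalso; linarith
    · exfalso; linarith
    · rw [fin hxy]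
  · intro x
    rcases x with ⟨i, b⟩ | k
    · have h1 := ha i
      have h3 := hab i
      obtain ⟨b1, b2⟩ := b
      cases b1 <;> cases b2 <;> simp only [nf, lift4] <;> linarith
    · have := hk k
      simp only [nf]
      linarith
  · intro x
    rcases x with ⟨i, b⟩ | k
    · have h1 := ha i
      have h3 := hab i
      have h2 : 0 < √((f i).2 + c) := h1.trans h3
      have A := ha2 i
      have B := hb2 i
      have old := h.cusp i
      obtain ⟨b1, b2⟩ := b
      cases b1 <;> cases b2 <;> simp only [nf, lift4] <;> apply CuspAt.pull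
      all_goals first
        | (apply ne_of_gt; linarith)
        | (apply ne_of_lt; linarith)
        | positivity
        | (apply ne_of_lt; nlinarith [mul_pos h1 h2])
        | (apply ne_of_gt; nlinarith [mul_pos h1 h2])
        | (convert old using 1
           apply pt_eq
           · linear_combination A + B
           · linear_combination (√((f i).2 + c) ^ 2 - c) * A + ((f i).1) * B)
    · have := ContactAt.cusp (h.contact k) (hk2 k) (hk k).ne'
      simp only [nf]
      convert this using 1
      apply pt_eq <;> ring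
  · rintro ⟨k, b⟩
    cases b
    · simp only [ng]
      exact ContactAt.pull (h.contact k) (by rw [neg_sq]; exact hk2 k)
        (neg_ne_zero.2 (hk k).ne')
    · simp only [ng]
      exact ContactAt.pull (h.contact k) (hk2 k) (hk k).ne'

/-- The new family of cusps when there is also a contact with the line `p = 0`. -/
noncomputable def nfl {ι κ : Type} (f : ι → ℝ × ℝ) (g : κ → ℝ) (y : ℝ) :
    ((ι × (Bool × Bool)) ⊕ κ) ⊕ Bool → ℝ × ℝ
  | Sum.inl x => nf 0 f g x
  | Sum.inr true => (0, √y)
  | Sum.inr false => (-√y, 0)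

theorem Good.step_line {F : MvPolynomial (Fin 2) ℝ} {ι κ : Type} {f : ι → ℝ × ℝ} {g : κ → ℝ}
    (h : Good F f g) (hf : ∀ i, 0 < (f i).1) (hg : ∀ k, 0 < g k) (y : ℝ) (hy : 0 < y)
    (hl : LineAt F y) :
    Good (comp (Ph 0) F) (nfl f g y) (ng 0 g) := by
  have hs := h.step 0 (fun i => by rw [add_zero]; exact hf i) (fun k => by rw [add_zero]; exact hg k)
  have hy0 : 0 < √y := Real.sqrt_pos.2 hy
  have nz : ∀ x, (nf 0 f g x).1 ≠ 0 ∧ (nf 0 f g x).2 ≠ 0 := by
    intro x
    rcases x with ⟨i, b⟩ | k
    · have h1 : 0 < √((f i).1 + 0) := Real.sqrt_pos.2 (by rw [add_zero]; exact hf i)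
      have h2 : 0 < √((f i).2 + 0) := Real.sqrt_pos.2 (by
        rw [add_zero]
        exact (hf i).trans (h.lt i))
      obtain ⟨b1, b2⟩ := b
      cases b1 <;> cases b2 <;> simp only [nf, lift4] <;> constructor <;>
        first
        | exact h1.ne'
        | exact h2.ne'
        | exact neg_ne_zero.2 h1.ne'
        | exact neg_ne_zero.2 h2.ne'
    · have h1 : 0 < √(g k + 0) := Real.sqrt_pos.2 (by rw [add_zero]; exact hg k)
      simp only [nf]
      exact ⟨neg_ne_zero.2 h1.ne', h1.ne'⟩
  refine ⟨?_, hs.ginj, ?_, ?_, hs.contact⟩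
  · intro x z hxz
    rcases x with x | b <;> rcases z with z | b'
    · simp only [nfl] at hxz
      rw [hs.finj hxz]
    · exfalso
      cases b' <;> simp only [nfl] at hxz
      · exact (nz x).2 (congrArg Prod.snd hxz)
      · exact (nz x).1 (congrArg Prod.fst hxz)
    · exfalso
      cases b <;> simp only [nfl] at hxz
      · exact (nz z).2 (congrArg Prod.snd hxz).symm
      · exact (nz z).1 (congrArg Prod.fst hxz).symm
    · cases b <;> cases b' <;> simp only [nfl] at hxz
      · rfl
      · exfalso
        have := congrArg Prod.snd hxz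
        simp only at this
        linarith
      · exfalso
        have := congrArg Prod.snd hxz
        simp only at this
        linarith
      · rfl
  · intro x
    rcases x with x | b
    · exact hs.lt x
    · cases b <;> simp only [nfl] <;> linarith
  · intro x
    rcases x with x | b
    · exact hs.cusp x
    · cases b
      · simp only [nfl]
        have := hl.cusp (b := -√y) (by rw [neg_sq]; exact Real.sq_sqrt hy.le)
          (neg_ne_zero.2 hy0.ne')
        convert this using 1
        apply pt_eq <;> ring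
      · simp only [nfl]
        have := hl.cusp (b := √y) (Real.sq_sqrt hy.le) hy0.ne'
        convert this using 1
        apply pt_eq <;> ring

theorem totalDegree_Ph (c : ℝ) (i : Fin 2) : (Ph c i).totalDegree ≤ 2 := by
  have hX : ∀ j : Fin 2, (X j * X j : MvPolynomial (Fin 2) ℝ).totalDegree ≤ 2 := by
    intro j
    refine (totalDegree_mul _ _).trans ?_
    rw [totalDegree_X]
  have hC : ∀ (a : ℝ) (P : MvPolynomial (Fin 2) ℝ), P.totalDegree ≤ 2 →
      (C a * P).totalDegree ≤ 2 := by
    intro a P hP
    refine (totalDegree_mul _ _).trans ?_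
    rw [totalDegree_C]
    omega
  have hX1 : (X 1 : MvPolynomial (Fin 2) ℝ).totalDegree ≤ 2 := by
    rw [totalDegree_X]
    norm_num
  have hCC : ∀ a : ℝ, (C a : MvPolynomial (Fin 2) ℝ).totalDegree ≤ 2 := by
    intro a
    rw [totalDegree_C]
    norm_num
  have add2 : ∀ P Q : MvPolynomial (Fin 2) ℝ, P.totalDegree ≤ 2 → Q.totalDegree ≤ 2 →
      (P + Q).totalDegree ≤ 2 := fun P Q hP hQ => (totalDegree_add _ _).trans (max_le hP hQ)
  have sub2 : ∀ P Q : MvPolynomial (Fin 2) ℝ, P.totalDegree ≤ 2 → Q.totalDegree ≤ 2 →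
      (P - Q).totalDegree ≤ 2 := fun P Q hP hQ => (totalDegree_sub _ _).trans (max_le hP hQ)
  fin_cases i
  · show (X 0 * X 0 - C 2 * X 1 - C (2 * c) : MvPolynomial (Fin 2) ℝ).totalDegree ≤ 2
    exact sub2 _ _ (sub2 _ _ (hX 0) (hC _ _ hX1)) (hCC _)
  · show (X 1 * X 1 - C c * (X 0 * X 0) + C (2 * c) * X 1 + C (c ^ 2) :
      MvPolynomial (Fin 2) ℝ).totalDegree ≤ 2
    exact add2 _ _ (add2 _ _ (sub2 _ _ (hX 1) (hC _ _ (hX 0))) (hC _ _ hX1)) (hCC _)

theorem tower {F : MvPolynomial (Fin 2) ℝ} {ι κ : Type} [Fintype ι] [Fintype κ] {f : ι → ℝ × ℝ}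
    {g : κ → ℝ} (h : Good F f g) (m : ℕ) :
    ∃ (F' : MvPolynomial (Fin 2) ℝ) (ι' κ' : Type) (_ : Fintype ι') (_ : Fintype κ')
      (f' : ι' → ℝ × ℝ) (g' : κ' → ℝ), Good F' f' g' ∧ F'.totalDegree ≤ 2 ^ m * F.totalDegree ∧
      Fintype.card κ' = 2 ^ m * Fintype.card κ ∧
      2 * Fintype.card ι' + Fintype.card κ' =
        4 ^ m * (2 * Fintype.card ι + Fintype.card κ) := by
  induction m with
  | zero => exact ⟨F, ι, κ, inferInstance, inferInstance, f, g, h, by simp, by simp, by simp⟩
  | succ m ih =>
    obtain ⟨F', ι', κ', i1, i2, f', g', h', hd, hk, he⟩ := ih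
    obtain ⟨c, hc1, hc2⟩ : ∃ c : ℝ, (∀ i, 0 < (f' i).1 + c) ∧ ∀ k, 0 < g' k + c := by
      have b1 : ∃ c1 : ℝ, ∀ i, -(f' i).1 ≤ c1 := by
        obtain ⟨c1, hc1⟩ := (Set.finite_range (fun i => -(f' i).1)).bddAbove
        exact ⟨c1, fun i => hc1 ⟨i, rfl⟩⟩
      have b2 : ∃ c1 : ℝ, ∀ i, -(g' i) ≤ c1 := by
        obtain ⟨c1, hc1⟩ := (Set.finite_range (fun i => -(g' i))).bddAbove
        exact ⟨c1, fun i => hc1 ⟨i, rfl⟩⟩
      obtain ⟨c1, hc1⟩ := b1
      obtain ⟨c2, hc2⟩ := b2
      refine ⟨max c1 c2 + 1, fun i => ?_, fun k => ?_⟩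
      · have := hc1 i
        have := le_max_left c1 c2
        linarith
      · have := hc2 k
        have := le_max_right c1 c2
        linarith
    refine ⟨comp (Ph c) F', (ι' × (Bool × Bool)) ⊕ κ', κ' × Bool, inferInstance, inferInstance,
      nf c f' g', ng c g', h'.step c hc1 hc2, ?_, ?_, ?_⟩
    · refine (totalDegree_comp _ _ 2 (totalDegree_Ph c)).trans ?_
      calc 2 * F'.totalDegree ≤ 2 * (2 ^ m * F.totalDegree) := Nat.mul_le_mul_left _ hd
        _ = 2 ^ (m + 1) * F.totalDegree := by ring
    · simp only [Fintype.card_prod, Fintype.card_bool, hk]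
      ring
    · simp only [Fintype.card_sum, Fintype.card_prod, Fintype.card_bool]
      rw [pow_succ 4 m, mul_comm (4 ^ m) 4, mul_assoc, ← he]
      ring

/-- Restriction to the conic. -/
noncomputable def onConic (F : MvPolynomial (Fin 2) ℝ) : Polynomial ℝ :=
  aeval (![Polynomial.C 2 * Polynomial.X, Polynomial.X ^ 2] : Fin 2 → Polynomial ℝ) F

theorem eval_onConic (F : MvPolynomial (Fin 2) ℝ) (t : ℝ) :
    (onConic F).eval t = eval (pt (2 * t) (t ^ 2)) F := by
  unfold onConic
  induction F using MvPolynomial.induction_on with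
  | C a => simp
  | add p q hp hq => simp only [map_add, Polynomial.eval_add, hp, hq]
  | mul_X p j hp =>
    simp only [map_mul, aeval_X, Polynomial.eval_mul, hp, eval_X]
    fin_cases j <;> simp

theorem derivative_onConic (F : MvPolynomial (Fin 2) ℝ) (t : ℝ) :
    (Polynomial.derivative (onConic F)).eval t =
      2 * (eval (pt (2 * t) (t ^ 2)) (pderiv 0 F) + t * eval (pt (2 * t) (t ^ 2)) (pderiv 1 F)) := by
  induction F using MvPolynomial.induction_on with
  | C a => simp [onConic]
  | add p q hp hq =>
    have : onConic (p + q) = onConic p + onConic q := by simp [onConic]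
    simp only [this, map_add, Polynomial.eval_add, hp, hq]
    ring
  | mul_X p j hp =>
    have : onConic (p * X j) = onConic p * onConic (X j) := by simp [onConic]
    rw [this, Polynomial.derivative_mul, Polynomial.eval_add, Polynomial.eval_mul,
      Polynomial.eval_mul, hp, eval_onConic, eval_onConic]
    simp only [Derivation.leibniz, smul_eq_mul, map_add, map_mul, eval_X]
    fin_cases j
    · simp [onConic, pderiv_X]
      ring
    · simp [onConic, pderiv_X]
      ring

theorem natDegree_onConic (F : MvPolynomial (Fin 2) ℝ) :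
    (onConic F).natDegree ≤ 2 * F.totalDegree := by
  unfold onConic
  rw [MvPolynomial.aeval_def, MvPolynomial.eval₂_eq]
  refine Polynomial.natDegree_sum_le_of_forall_le _ _ (fun d hd => ?_)
  refine (Polynomial.natDegree_mul_le).trans ?_
  have h1 : (algebraMap ℝ (Polynomial ℝ) (coeff d F)).natDegree = 0 := by
    rw [Polynomial.algebraMap_eq, Polynomial.natDegree_C]
  rw [h1, zero_add]
  refine (Polynomial.natDegree_prod_le _ _).trans ?_
  have h2 : ∑ i ∈ d.support, ((![Polynomial.C 2 * Polynomial.X, Polynomial.X ^ 2] :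
      Fin 2 → Polynomial ℝ) i ^ d i).natDegree ≤ ∑ i ∈ d.support, d i * 2 := by
    refine Finset.sum_le_sum (fun i _ => (Polynomial.natDegree_pow_le).trans
      (Nat.mul_le_mul_left _ ?_))
    fin_cases i
    · show (Polynomial.C 2 * Polynomial.X : Polynomial ℝ).natDegree ≤ 2
      refine Polynomial.natDegree_mul_le.trans ?_
      simp
    · show (Polynomial.X ^ 2 : Polynomial ℝ).natDegree ≤ 2
      simp
  refine h2.trans ?_
  rw [← Finset.sum_mul, mul_comm]
  exact Nat.mul_le_mul_left _ (MvPolynomial.le_totalDegree hd)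

theorem card_le_of_good {F : MvPolynomial (Fin 2) ℝ} {ι κ : Type} [Fintype κ]
    {f : ι → ℝ × ℝ} {g : κ → ℝ} (h : Good F f g) :
    Fintype.card κ ≤ 2 * F.totalDegree := by
  classical
  by_cases hk : Nonempty κ
  · obtain ⟨k0⟩ := hk
    have hz : ∀ k, (onConic F).eval (g k) = 0 := by
      intro k
      obtain ⟨A, B, m, rfl, hm, -⟩ := h.contact k
      rw [eval_onConic]
      simp [Ga, hm]
      right
      ring
    have hne : onConic F ≠ 0 := by
      obtain ⟨A, B, m, rfl, hm, hA, hB, hj⟩ := h.contact k0
      have e1 : onConic (A * Ga + B * m ^ 3) = onConic B * onConic m ^ 3 := by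
        have : onConic Ga = 0 := by
          simp only [onConic, Ga, map_sub, map_mul, map_pow, aeval_X, aeval_C]
          simp only [Matrix.cons_val_zero, Matrix.cons_val_one, Polynomial.algebraMap_eq]
          rw [mul_pow, ← Polynomial.C_pow]
          norm_num
        have e2 : onConic (A * Ga + B * m ^ 3) = onConic A * onConic Ga + onConic B * onConic m ^ 3
            := by simp [onConic]
        rw [e2, this, mul_zero, zero_add]
      rw [e1]
      refine mul_ne_zero ?_ (pow_ne_zero _ ?_)
      · intro h0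
        apply hB
        rw [← eval_onConic, h0, Polynomial.eval_zero]
      · intro h0
        apply hj
        have := derivative_onConic m (g k0)
        rw [h0] at this
        simp only [Polynomial.derivative_zero, Polynomial.eval_zero] at this
        linarith
    have h1 : (Finset.univ.image g).card ≤ (onConic F).natDegree := by
      refine le_trans (Finset.card_le_card ?_) ((Multiset.toFinset_card_le _).trans
        (Polynomial.card_roots' (onConic F)))
      intro x hx
      obtain ⟨k, -, rfl⟩ := Finset.mem_image.1 hx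
      rw [Multiset.mem_toFinset, Polynomial.mem_roots hne]
      exact hz k
    rw [Finset.card_image_of_injective _ h.ginj, Finset.card_univ] at h1
    exact h1.trans (natDegree_onConic F)
  · rw [not_nonempty_iff] at hk
    rw [Fintype.card_eq_zero]
    exact Nat.zero_le _

end Pool.Agent.W416.Cusp
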