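import Pool.Agent.W416.Cusp.Data
import Pool.Agent.W416.Cusp.Tower

set_option autoImplicit false

namespace Pool.Agent.W416.Cusp

open MvPolynomial

/-- The homogeneous quintic with five real cusps, in the variables `x, Y = y ^ 2, z`. -/
def PF {R : Type*} [CommRing R] (x Y z : R) : R :=
  8 * x ^ 5 - 80 * x ^ 3 * Y + 40 * x * Y ^ 2 - 15 * (x ^ 2 + Y) ^ 2 * z + 10 * (x ^ 2 + Y) * z ^ 3 -
    3 * z ^ 5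

theorem PF_cert {R : Type*} [CommRing R] (x k y z : R) : PF x (k * y ^ 2) z =
    (k * ((40 * x - 15 * z) * (k * y ^ 2) + (-80 * x ^ 3 - 30 * x ^ 2 * z + 10 * z ^ 3))) * y ^ 2 +
      (8 * x ^ 2 + 9 * x * z + 3 * z ^ 2) * (x - z) ^ 3 := by
  unfold PF
  ring

theorem PF_rot1 {c : ℝ} (hc : 4 * c ^ 2 + 2 * c = 1) (x y z : ℝ) :
    PF (c * x + y) (8 / 5 * (1 - c) * (c * y - (3 + 2 * c) / 4 * x) ^ 2) z =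
      PF x (8 / 5 * (1 - c) * y ^ 2) z := by
  unfold PF
  linear_combination (
    (128/5)*c^5*x*y^4 - (256/5)*c^5*x^2*y^3 + (192/5)*c^5*x^3*y^2 - (64/5)*c^5*x^4*y +
      (8/5)*c^5*x^5 + (96/5)*c^4*x*y^3*z - (576/5)*c^4*x*y^4 - (72/5)*c^4*x^2*y^2*z +
      (448/5)*c^4*x^2*y^3 + (24/5)*c^4*x^3*y*z + (192/5)*c^4*x^3*y^2 - 56*c^4*x^4*y -
      (3/5)*c^4*x^4*z + (68/5)*c^4*x^5 - (48/5)*c^4*y^4*z + (128/5)*c^4*y^5 - (96/5)*c^3*x*y^3*z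
      + (576/5)*c^3*x*y^4 + (24/5)*c^3*x^2*y^2*z + (896/5)*c^3*x^2*y^3 - (12/5)*c^3*x^3*y*z -
      (1376/5)*c^3*x^3*y^2 + (276/5)*c^3*x^4*y + (9/10)*c^3*x^4*z + (78/5)*c^3*x^5 +
      24*c^3*y^4*z - 64*c^3*y^5 + 112*c^2*x*y^4 - (12/5)*c^2*x^2*y^2*z - (2208/5)*c^2*x^2*y^3 -
      (18/5)*c^2*x^3*y*z + (408/5)*c^2*x^3*y^2 + (702/5)*c^2*x^4*y + (3/20)*c^2*x^4*z -
      (112/5)*c^2*x^5 - 24*c^2*y^4*z + 64*c^2*y^5 + 4*c*x*y*z^3 - 12*c*x*y^3*z - 232*c*x*y^4 +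
      15*c*x^2*y^2*z + 168*c*x^2*y^3 - c*x^2*z^3 - (54/5)*c*x^3*y*z + (1304/5)*c*x^3*y^2 -
      (432/5)*c*x^4*y + (12/5)*c*x^4*z - (82/5)*c*x^5 - 4*c*y^2*z^3 + 30*c*y^4*z - 16*c*y^5 +
      (512/5)*x*y^4 - 21*x^2*y^2*z + 72*x^2*y^3 + x^2*z^3 - 128*x^3*y^2 - (162/5)*x^4*y -
      (57/20)*x^4*z + 8*x^5 + 6*y^2*z^3 - (117/5)*y^4*z - 8*y^5) * hc

theorem PF_rot2 {c : ℝ} (hc : 4 * c ^ 2 + 2 * c = 1) (x y z : ℝ) :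
    PF ((-1 / 2 - c) * x + (-2 * c) * y)
      (8 / 5 * (1 - c) * ((-1 / 2 - c) * y - (-c - 1 / 4) * x) ^ 2) z =
      PF x (8 / 5 * (1 - c) * y ^ 2) z := by
  unfold PF
  linear_combination (
    (896/5)*c^5*x*y^4 - (1024/5)*c^5*x^2*y^3 + (256/5)*c^5*x^3*y^2 + (256/5)*c^5*x^4*y -
      (128/5)*c^5*x^5 - (256/5)*c^5*y^5 + (192/5)*c^4*x*y^3*z - (128/5)*c^4*x*y^4 -
      (288/5)*c^4*x^2*y^2*z + (3008/5)*c^4*x^2*y^3 + (192/5)*c^4*x^3*y*z - (1056/5)*c^4*x^3*y^2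
      - 128*c^4*x^4*y - (48/5)*c^4*x^4*z - (32/5)*c^4*x^5 - (48/5)*c^4*y^4*z - (1152/5)*c^4*y^5
      - (384/5)*c^3*x*y^3*z - (3328/5)*c^3*x*y^4 + (108/5)*c^3*x^2*y^2*z - (864/5)*c^3*x^2*y^3 -
      24*c^3*x^3*y*z + (1536/5)*c^3*x^3*y^2 - (308/5)*c^3*x^4*y + (132/5)*c^3*x^4*z -
      (42/5)*c^3*x^5 + (264/5)*c^3*y^4*z + (576/5)*c^3*y^5 - (384/5)*c^2*x*y^3*z + 208*c^2*x*y^4
      - (414/5)*c^2*x^2*y^2*z - 400*c^2*x^2*y^3 - (312/5)*c^2*x^3*y*z - (864/5)*c^2*x^3*y^2 +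
      (174/5)*c^2*x^4*y - (147/20)*c^2*x^4*z + (58/5)*c^2*x^5 - (372/5)*c^2*y^4*z +
      (512/5)*c^2*y^5 + 8*c*x*y*z^3 - 24*c*x*y^3*z + (32/5)*c*x*y^4 - (9/5)*c*x^2*y^2*z -
      (528/5)*c*x^2*y^3 - 4*c*x^2*z^3 - (144/5)*c*x^3*y*z - (316/5)*c*x^3*y^2 + (101/5)*c*x^4*y
      - (339/40)*c*x^4*z + (38/5)*c*x^5 - 4*c*y^2*z^3 + (96/5)*c*y^4*z + (64/5)*c*y^5 +
      4*x*y*z^3 - (24/5)*x*y^3*z + (528/5)*x*y^4 - (207/5)*x^2*y^2*z - (32/5)*x^2*y^3 +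
      (13/2)*x^2*z^3 - (21/5)*x^3*y*z - (636/5)*x^3*y^2 + (12/5)*x^4*y - (1053/80)*x^4*z +
      (149/20)*x^5 + 12*y^2*z^3 - 36*y^4*z) * hc

/-- Rotation invariance with parameters `a = cos θ`, `b = S sin θ`, `e = sin θ / S`. -/
def Rot (c a b e : ℝ) : Prop := a ^ 2 + b * e = 1 ∧ ∀ x y z : ℝ,
  PF (a * x + e * y) (8 / 5 * (1 - c) * (a * y - b * x) ^ 2) z = PF x (8 / 5 * (1 - c) * y ^ 2) z

theorem Rot.neg {c a b e : ℝ} (h : Rot c a b e) : Rot c a (-b) (-e) := by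
  refine ⟨by linarith [h.1], fun x y z => ?_⟩
  have := h.2 x (-y) z
  rw [show a * x + e * -y = a * x + -e * y by ring,
    show (a * -y - b * x) ^ 2 = (a * y - -b * x) ^ 2 by ring, neg_sq] at this
  exact this

theorem rot0 (c : ℝ) : Rot c 1 0 0 := by
  refine ⟨by norm_num, fun x y z => ?_⟩
  rw [show (1 : ℝ) * x + 0 * y = x by ring, show (1 : ℝ) * y - 0 * x = y by ring]

theorem rot1 {c : ℝ} (hc : 4 * c ^ 2 + 2 * c = 1) : Rot c c ((3 + 2 * c) / 4) 1 := by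
  refine ⟨by linarith, fun x y z => ?_⟩
  rw [one_mul]
  exact PF_rot1 hc x y z

theorem rot2 {c : ℝ} (hc : 4 * c ^ 2 + 2 * c = 1) :
    Rot c (-1 / 2 - c) (-c - 1 / 4) (-2 * c) := by
  refine ⟨by linear_combination (3 / 4) * hc, fun x y z => ?_⟩
  exact PF_rot2 hc x y z

end Pool.Agent.W416.Cusp
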