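import Mathlib

set_option autoImplicit false

namespace Pool.Agent.W416.Cusp

noncomputable def rh (x : ℝ) : ℝ := √((4 * x ^ 2 + 2 * x - 1) / 5)
noncomputable def f0 (x : ℝ) : ℝ := (8 * x ^ 3 + 3 * x ^ 2 - 1 - 10 * rh x ^ 3) / (8 * x - 3)
noncomputable def f1 (x : ℝ) : ℝ :=
  (24 * x ^ 2 + 6 * x - 6 * rh x * (4 * x + 1) - 8 * f0 x) / (8 * x - 3)
noncomputable def f2 (x : ℝ) : ℝ :=
  (24 * x + 3 - 3 / rh x - 24 * rh x - 8 * f1 x) / (8 * x - 3)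
noncomputable def fR (c x : ℝ) : ℝ :=
  4 * ((3 + 2 * c) / 4 * f2 x - c ^ 2) * ((3 + 2 * c) / 4 * f0 x - (3 / 8 - c * x) ^ 2) -
    ((3 + 2 * c) / 4 * f1 x + 2 * c * (3 / 8 - c * x)) ^ 2

theorem rh_cont : Continuous rh := by
  unfold rh
  fun_prop

theorem rh_pos {x : ℝ} (hx : x ∈ Set.Icc (2967 / 8662 : ℝ) (743 / 2168)) :
    0.1757 ≤ rh x ∧ rh x ≤ 0.1762 := by
  obtain ⟨h1, h2⟩ := hx
  constructor
  · apply Real.le_sqrt_of_sq_le
    nlinarith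
  · apply Real.sqrt_le_iff.2
    constructor
    · norm_num
    · nlinarith

theorem fR_cont (c : ℝ) : ContinuousOn (fR c) (Set.Icc (2967 / 8662 : ℝ) (743 / 2168)) := by
  have hd : ∀ x ∈ Set.Icc (2967 / 8662 : ℝ) (743 / 2168), 8 * x - 3 ≠ 0 := by
    intro x hx
    have := hx.2
    apply ne_of_lt
    linarith
  have hr : ∀ x ∈ Set.Icc (2967 / 8662 : ℝ) (743 / 2168), rh x ≠ 0 := by
    intro x hx
    have := (rh_pos hx).1
    apply ne_of_gt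
    linarith
  have c0 : ContinuousOn f0 (Set.Icc (2967 / 8662 : ℝ) (743 / 2168)) := by
    unfold f0
    refine ContinuousOn.div ?_ (by fun_prop) hd
    exact Continuous.continuousOn (by have := rh_cont; fun_prop)
  have c1 : ContinuousOn f1 (Set.Icc (2967 / 8662 : ℝ) (743 / 2168)) := by
    unfold f1
    refine ContinuousOn.div ?_ (by fun_prop) hd
    have := rh_cont.continuousOn (s := Set.Icc (2967 / 8662 : ℝ) (743 / 2168))
    fun_prop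
  have c2 : ContinuousOn f2 (Set.Icc (2967 / 8662 : ℝ) (743 / 2168)) := by
    unfold f2
    refine ContinuousOn.div ?_ (by fun_prop) hd
    have := rh_cont.continuousOn (s := Set.Icc (2967 / 8662 : ℝ) (743 / 2168))
    have h3 : ContinuousOn (fun x => 3 / rh x) (Set.Icc (2967 / 8662 : ℝ) (743 / 2168)) :=
      ContinuousOn.div (by fun_prop) this hr
    fun_prop
  unfold fR
  fun_prop

theorem rh_a : rh (2967 / 8662) = 761 / 4331 := by
  unfold rh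
  rw [show (4 * (2967 / 8662 : ℝ) ^ 2 + 2 * (2967 / 8662) - 1) / 5 = (761 / 4331) ^ 2 by norm_num]
  exact Real.sqrt_sq (by norm_num)

theorem rh_b : rh (743 / 2168) = 191 / 1084 := by
  unfold rh
  rw [show (4 * (743 / 2168 : ℝ) ^ 2 + 2 * (743 / 2168) - 1) / 5 = (191 / 1084) ^ 2 by norm_num]
  exact Real.sqrt_sq (by norm_num)

theorem f0_a : f0 (2967 / 8662) = 989846675 / 675272196 := by
  rw [f0, rh_a]
  norm_num

theorem f1_a : f1 (2967 / 8662) = 12633635 / 350811 := by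
  rw [f1, f0_a, rh_a]
  norm_num

theorem f2_a : f2 (2967 / 8662) = 636815206 / 554769 := by
  rw [f2, f1_a, rh_a]
  norm_num

theorem f0_b : f0 (743 / 2168) = 6920731 / 4700224 := by
  rw [f0, rh_b]
  norm_num

theorem f1_b : f1 (743 / 2168) = 197467 / 5420 := by
  rw [f1, f0_b, rh_b]
  norm_num

theorem f2_b : f2 (743 / 2168) = 5573441 / 4775 := by
  rw [f2, f1_b, rh_b]
  norm_num

theorem fR_a {c : ℝ} (hc : 4 * c ^ 2 + 2 * c = 1) (h1 : -0.809017 < c) (h2 : c < -0.809016) :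
    fR c (2967 / 8662) < 0 := by
  rw [fR, f0_a, f1_a, f2_a]
  obtain ⟨G, hG⟩ : ∃ G, G = (3 + 2 * c) / 4 * (636815206 / 554769) - c ^ 2 := ⟨_, rfl⟩
  obtain ⟨K, hK⟩ : ∃ K, K = (3 + 2 * c) / 4 * (989846675 / 675272196) -
    (3 / 8 - c * (2967 / 8662)) ^ 2 := ⟨_, rfl⟩
  obtain ⟨L, hL⟩ : ∃ L, L = (3 + 2 * c) / 4 * (12633635 / 350811) +
    2 * c * (3 / 8 - c * (2967 / 8662)) := ⟨_, rfl⟩
  rw [← hG, ← hK, ← hL]
  have g1 : 0 < G ∧ G < 396 := by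
    constructor <;> nlinarith
  have k1 : K < 0.08119 := by nlinarith
  have l1 : 11.3869 < L := by nlinarith
  have : G * K ≤ 396 * 0.08119 := by
    rcases le_or_gt K 0 with h | h
    · nlinarith [mul_nonneg g1.1.le (neg_nonneg.2 h)]
    · exact mul_le_mul g1.2.le k1.le h.le (by norm_num)
  nlinarith

theorem fR_b {c : ℝ} (hc : 4 * c ^ 2 + 2 * c = 1) (h1 : -0.809017 < c) (h2 : c < -0.809016) :
    0 < fR c (743 / 2168) := by
  rw [fR, f0_b, f1_b, f2_b]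
  obtain ⟨G, hG⟩ : ∃ G, G = (3 + 2 * c) / 4 * (5573441 / 4775) - c ^ 2 := ⟨_, rfl⟩
  obtain ⟨K, hK⟩ : ∃ K, K = (3 + 2 * c) / 4 * (6920731 / 4700224) -
    (3 / 8 - c * (743 / 2168)) ^ 2 := ⟨_, rfl⟩
  obtain ⟨L, hL⟩ : ∃ L, L = (3 + 2 * c) / 4 * (197467 / 5420) +
    2 * c * (3 / 8 - c * (743 / 2168)) := ⟨_, rfl⟩
  rw [← hG, ← hK, ← hL]
  have g1 : 402.6 < G := by nlinarith
  have k1 : 0.083266 < K := by nlinarith
  have l1 : L < 11.53195 ∧ 0 < L := by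
    constructor <;> nlinarith
  have : 402.6 * 0.083266 ≤ G * K := mul_le_mul g1.le k1.le (by norm_num) (by linarith)
  nlinarith [l1.1, l1.2]

theorem exists_root {c : ℝ} (hc : 4 * c ^ 2 + 2 * c = 1) (h1 : -0.809017 < c)
    (h2 : c < -0.809016) : ∃ x r Y0 Y1 Y2 : ℝ, 0.3425 < x ∧ x < 0.3428 ∧ 0.1757 ≤ r ∧
      r ≤ 0.1762 ∧ 5 * r ^ 2 = 4 * x ^ 2 + 2 * x - 1 ∧
      (8 * x - 3) * Y0 = 8 * x ^ 3 + 3 * x ^ 2 - 1 - 10 * r ^ 3 ∧
      (8 * x - 3) * Y1 + 8 * Y0 = 24 * x ^ 2 + 6 * x - 6 * r * (4 * x + 1) ∧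
      r * ((8 * x - 3) * Y2 + 8 * Y1 - 24 * x - 3) = - 3 - 24 * r ^ 2 ∧
      4 * ((3 + 2 * c) / 4 * Y2 - c ^ 2) * ((3 + 2 * c) / 4 * Y0 - (3 / 8 - c * x) ^ 2) =
        ((3 + 2 * c) / 4 * Y1 + 2 * c * (3 / 8 - c * x)) ^ 2 := by
  have hab : (2967 / 8662 : ℝ) ≤ 743 / 2168 := by norm_num
  obtain ⟨x, hx, hR⟩ := intermediate_value_Icc hab (fR_cont c)
    (show (0 : ℝ) ∈ Set.Icc (fR c (2967 / 8662)) (fR c (743 / 2168)) from
      ⟨(fR_a hc h1 h2).le, (fR_b hc h1 h2).le⟩)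
  have hr := rh_pos hx
  have hx1 := hx.1
  have hx2 := hx.2
  have hd : 8 * x - 3 ≠ 0 := by
    apply ne_of_lt
    linarith
  have hr0 : rh x ≠ 0 := by
    apply ne_of_gt
    linarith [hr.1]
  refine ⟨x, rh x, f0 x, f1 x, f2 x, by linarith, by linarith, hr.1, hr.2, ?_, ?_, ?_, ?_, ?_⟩
  · unfold rh
    rw [Real.sq_sqrt (by nlinarith)]
    ring
  · unfold f0
    field_simp
  · unfold f1
    field_simp
    ring
  · unfold f2
    field_simp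
    ring
  · unfold fR at hR
    linarith

end Pool.Agent.W416.Cusp
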