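import Pool.Agent.W416.Cusp.Quintic

set_option autoImplicit false

namespace Pool.Agent.W416.Cusp

open MvPolynomial

/-- The affine form `a p + b s + d`. -/
noncomputable def lin (a b d : ℝ) : MvPolynomial (Fin 2) ℝ := C a * X 1 + C b * X 0 + C d

theorem eval_lin (a b d : ℝ) (q : Fin 2 → ℝ) : eval q (lin a b d) = a * q 1 + b * q 0 + d := by
  simp [lin]

theorem pderiv0_lin (a b d : ℝ) : pderiv 0 (lin a b d) = C b := by
  simp [lin, pderiv_X]

theorem pderiv1_lin (a b d : ℝ) : pderiv 1 (lin a b d) = C a := by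
  simp [lin, pderiv_X]

noncomputable def lx (μ g : ℝ) : MvPolynomial (Fin 2) ℝ :=
  lin (μ * (1 - g) + 15 / 4) (μ * g - 15 / 8) (-μ * g)

noncomputable def lz (c g : ℝ) : MvPolynomial (Fin 2) ℝ :=
  lin (1 - g + 10 * c) (g - 5 * c) (-g)

noncomputable def le (c μ g : ℝ) : MvPolynomial (Fin 2) ℝ :=
  lin (-(3 / 8 - c * μ) * (1 + g)) ((3 / 8 - c * μ) * g) (-(3 / 8 - c * μ) * g)

noncomputable def FF (c μ g : ℝ) : MvPolynomial (Fin 2) ℝ :=
  PF (lx μ g) (C (8 / 5 * (1 - c)) * (le c μ g) ^ 2) (lz c g)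

theorem eval_PF (q : Fin 2 → ℝ) (x Y z : MvPolynomial (Fin 2) ℝ) :
    eval q (PF x Y z) = PF (eval q x) (eval q Y) (eval q z) := by
  simp [PF]

theorem FF_rot {c a b e : ℝ} (h : Rot c a b e) (μ g : ℝ) :
    FF c μ g = PF (C a * lx μ g + C e * le c μ g)
      (C (8 / 5 * (1 - c)) * (C a * le c μ g - C b * lx μ g) ^ 2) (lz c g) := by
  apply MvPolynomial.funext
  intro q
  have := h.2 (eval q (lx μ g)) (eval q (le c μ g)) (eval q (lz c g))
  rw [FF, eval_PF, eval_PF]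
  simp only [map_mul, map_pow, map_add, map_sub, eval_C]
  exact this.symm

theorem cusp_seed {c a b e : ℝ} (h : Rot c a b e) (hc1 : 1 - c ≠ 0) {μ g u w v D : ℝ}
    (hu : u = 3 / 8 - c * a - b) (hw : w = -3 / 8 + c * a - b) (hv : v = 2 * (a - μ))
    (hD : D = g * (u - v / 5) + w) (hD0 : D ≠ 0) (hg : g ≠ 0) (hμ : 3 / 4 - 2 * c * μ ≠ 0) :
    CuspAt (FF c μ g) (pt (g * (2 * u - v / 5) / D) (g * u / D)) := by
  have hx : eval (pt (g * (2 * u - v / 5) / D) (g * u / D)) (lx μ g) =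
      g / D * ((3 / 4 - 2 * c * μ) * a) := by
    rw [lx, eval_lin, pt_zero, pt_one]
    field_simp
    rw [hD, hu, hv, hw]
    ring
  have hz : eval (pt (g * (2 * u - v / 5) / D) (g * u / D)) (lz c g) =
      g / D * (3 / 4 - 2 * c * μ) := by
    rw [lz, eval_lin, pt_zero, pt_one]
    field_simp
    rw [hD, hu, hv, hw]
    ring
  have hy : eval (pt (g * (2 * u - v / 5) / D) (g * u / D)) (le c μ g) =
      g / D * ((3 / 4 - 2 * c * μ) * b) := by
    rw [le, eval_lin, pt_zero, pt_one]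
    field_simp
    rw [hD, hu, hv, hw]
    ring
  have hgD : g / D * (3 / 4 - 2 * c * μ) ≠ 0 := mul_ne_zero (div_ne_zero hg hD0) hμ
  have h1 := h.1
  rw [FF_rot h, PF_cert]
  refine ⟨_, _, C a * le c μ g - C b * lx μ g, C a * lx μ g + C e * le c μ g - lz c g, rfl,
    ?_, ?_, ?_, ?_, ?_⟩
  · simp only [map_sub, map_mul, eval_C, hx, hy]
    ring
  · simp only [map_sub, map_add, map_mul, eval_C, hx, hy, hz]
    linear_combination g / D * (3 / 4 - 2 * c * μ) * h1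
  · have e1 : a * (g / D * ((3 / 4 - 2 * c * μ) * b)) - b * (g / D * ((3 / 4 - 2 * c * μ) * a))
        = 0 := by ring
    have e2 : a * (g / D * ((3 / 4 - 2 * c * μ) * a)) + e * (g / D * ((3 / 4 - 2 * c * μ) * b))
        = g / D * (3 / 4 - 2 * c * μ) := by
      linear_combination g / D * (3 / 4 - 2 * c * μ) * h1
    simp only [map_sub, map_add, map_mul, map_pow, eval_C, hx, hy, hz, map_neg, map_ofNat, e1, e2]
    have : 8 / 5 * (1 - c) * ((40 * (g / D * (3 / 4 - 2 * c * μ)) -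
        15 * (g / D * (3 / 4 - 2 * c * μ))) * (8 / 5 * (1 - c) * 0 ^ 2) +
        (-80 * (g / D * (3 / 4 - 2 * c * μ)) ^ 3 - 30 * (g / D * (3 / 4 - 2 * c * μ)) ^ 2 *
        (g / D * (3 / 4 - 2 * c * μ)) + 10 * (g / D * (3 / 4 - 2 * c * μ)) ^ 3)) =
        -160 * (1 - c) * (g / D * (3 / 4 - 2 * c * μ)) ^ 3 := by ring
    rw [this]
    exact mul_ne_zero (mul_ne_zero (by norm_num) hc1) (pow_ne_zero _ hgD)
  · have e2 : a * (g / D * ((3 / 4 - 2 * c * μ) * a)) + e * (g / D * ((3 / 4 - 2 * c * μ) * b))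
        = g / D * (3 / 4 - 2 * c * μ) := by
      linear_combination g / D * (3 / 4 - 2 * c * μ) * h1
    simp only [map_sub, map_add, map_mul, map_pow, eval_C, hx, hy, hz, map_neg, map_ofNat, e2]
    have : 8 * (g / D * (3 / 4 - 2 * c * μ)) ^ 2 + 9 * (g / D * (3 / 4 - 2 * c * μ)) *
        (g / D * (3 / 4 - 2 * c * μ)) + 3 * (g / D * (3 / 4 - 2 * c * μ)) ^ 2 =
        20 * (g / D * (3 / 4 - 2 * c * μ)) ^ 2 := by ring
    rw [this]
    exact mul_ne_zero (by norm_num) (pow_ne_zero _ hgD)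
  · unfold jac
    simp only [map_sub, map_add, Derivation.leibniz, smul_eq_mul, pderiv_C, lx, le, lz,
      pderiv0_lin, pderiv1_lin, mul_zero, add_zero, map_mul, eval_C]
    have key : (a * ((3 / 8 - c * μ) * g) - b * (μ * g - 15 / 8)) *
        (a * (μ * (1 - g) + 15 / 4) + e * (-(3 / 8 - c * μ) * (1 + g)) - (1 - g + 10 * c)) -
        (a * (-(3 / 8 - c * μ) * (1 + g)) - b * (μ * (1 - g) + 15 / 4)) *
        (a * (μ * g - 15 / 8) + e * ((3 / 8 - c * μ) * g) - (g - 5 * c)) =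
        5 / 2 * (3 / 4 - 2 * c * μ) * D := by
      rw [hD, hu, hv, hw]
      linear_combination (-2*c*g*μ^2 - (15/8)*c*g*μ + (15/8)*c*μ + (3/4)*g*μ + (45/64)*g - (45/64))
        * h1
    rw [key]
    exact mul_ne_zero (mul_ne_zero (by norm_num) hμ) hD0

end Pool.Agent.W416.Cusp
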