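import Pool.Agent.W416.Cusp.Seed

set_option autoImplicit false

namespace Pool.Agent.W416.Cusp

open MvPolynomial

theorem line_id (x Y z : ℝ) : PF x Y z =
    (40 * Y ^ 2 + (-80 * (x ^ 2 + x * (3 / 8 * z) + (3 / 8 * z) ^ 2) - 30 * z * (x + 3 / 8 * z)) * Y +
      8 * (x ^ 4 + x ^ 3 * (3 / 8 * z) + x ^ 2 * (3 / 8 * z) ^ 2 + x * (3 / 8 * z) ^ 3 +
        (3 / 8 * z) ^ 4) -
      15 * z * (x ^ 3 + x ^ 2 * (3 / 8 * z) + x * (3 / 8 * z) ^ 2 + (3 / 8 * z) ^ 3) +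
      10 * z ^ 3 * (x + 3 / 8 * z)) * (x - 3 / 8 * z) +
      (25 / 16 * Y - 1875 / 1024 * z ^ 2) * z ^ 3 := by
  unfold PF
  ring

theorem line_seed {c μ g : ℝ} (hc : 4 * c ^ 2 + 2 * c = 1) (hc1 : 1 - c ≠ 0) (hg : g ≠ 0)
    (hμ : 3 / 8 - c * μ ≠ 0) (hgc : g - 5 * c ≠ 0) :
    LineAt (FF c μ g) (g / (g - 5 * c)) := by
  have hy := div_mul_cancel₀ g hgc
  have hy0 : g / (g - 5 * c) ≠ 0 := div_ne_zero hg hgc
  generalize g / (g - 5 * c) = y at hy hy0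
  obtain ⟨x', hx'⟩ : ∃ x' : MvPolynomial (Fin 2) ℝ, x' = C c * lx μ g + C 1 * le c μ g := ⟨_, rfl⟩
  obtain ⟨y', hy'⟩ : ∃ y' : MvPolynomial (Fin 2) ℝ,
    y' = C c * le c μ g - C ((3 + 2 * c) / 4) * lx μ g := ⟨_, rfl⟩
  obtain ⟨Y, hY⟩ : ∃ Y : MvPolynomial (Fin 2) ℝ, Y = C (8 / 5 * (1 - c)) * y' ^ 2 := ⟨_, rfl⟩
  obtain ⟨z, hz⟩ : ∃ z : MvPolynomial (Fin 2) ℝ, z = lz c g := ⟨_, rfl⟩
  have e0 : FF c μ g = PF x' Y z := by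
    rw [FF_rot (rot1 hc), hY, hy', hx', hz]
  have ezero : eval (pt y 0) (lz c g) = 0 := by
    rw [lz, eval_lin, pt_zero, pt_one]
    linear_combination hy
  have ex : eval (pt y 0) (lx μ g) = -5 * (3 / 8 - c * μ) * y := by
    rw [lx, eval_lin, pt_zero, pt_one]
    linear_combination μ * hy
  have ey : eval (pt y 0) (le c μ g) = 5 * c * (3 / 8 - c * μ) * y := by
    rw [le, eval_lin, pt_zero, pt_one]
    linear_combination (3 / 8 - c * μ) * hy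
  have ex' : eval (pt y 0) x' = 0 := by
    rw [hx']
    simp only [map_add, map_mul, eval_C, ex, ey]
    ring
  have ey' : eval (pt y 0) y' = 5 * (3 / 8 - c * μ) * y := by
    rw [hy']
    simp only [map_sub, map_mul, eval_C, ex, ey]
    linear_combination (5 / 4 * (3 / 8 - c * μ) * y) * hc
  have eY : eval (pt y 0) Y ≠ 0 := by
    rw [hY]
    simp only [map_mul, map_pow, eval_C, ey']
    refine mul_ne_zero (mul_ne_zero (by norm_num) hc1) (pow_ne_zero _ ?_)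
    exact mul_ne_zero (mul_ne_zero (by norm_num) hμ) hy0
  refine ⟨C (-2 * (3 / 8 - c * μ)) * (C 40 * Y ^ 2 +
      (C (-80) * (x' ^ 2 + x' * (C (3 / 8) * z) + (C (3 / 8) * z) ^ 2) -
        C 30 * z * (x' + C (3 / 8) * z)) * Y +
      C 8 * (x' ^ 4 + x' ^ 3 * (C (3 / 8) * z) + x' ^ 2 * (C (3 / 8) * z) ^ 2 +
        x' * (C (3 / 8) * z) ^ 3 + (C (3 / 8) * z) ^ 4) -
      C 15 * z * (x' ^ 3 + x' ^ 2 * (C (3 / 8) * z) + x' * (C (3 / 8) * z) ^ 2 +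
        (C (3 / 8) * z) ^ 3) + C 10 * z ^ 3 * (x' + C (3 / 8) * z)),
    C (25 / 16) * Y - C (1875 / 1024) * z ^ 2, z, ?_, ?_, ?_, ?_, ?_⟩
  · rw [e0]
    apply MvPolynomial.funext
    intro q
    have key : eval q x' - 3 / 8 * eval q z = -2 * (3 / 8 - c * μ) * eval q (X 1) := by
      rw [hx', hz]
      simp only [map_add, map_mul, eval_C, eval_X, lx, le, lz, eval_lin]
      ring
    rw [eval_PF, line_id, key]
    simp only [map_add, map_mul, map_sub, map_pow, eval_C]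
    ring
  · rw [hz]
    exact ezero
  · simp only [map_add, map_mul, map_sub, map_pow, eval_C, ex', hz, ezero]
    have : -2 * (3 / 8 - c * μ) *
      (40 * (eval (pt y 0) Y) ^ 2 +
              (-80 * (0 ^ 2 + 0 * (3 / 8 * 0) + (3 / 8 * 0) ^ 2) - 30 * 0 * (0 + 3 / 8 * 0)) *
                (eval (pt y 0) Y) +
            8 * (0 ^ 4 + 0 ^ 3 * (3 / 8 * 0) + 0 ^ 2 * (3 / 8 * 0) ^ 2 + 0 * (3 / 8 * 0) ^ 3 +
              (3 / 8 * 0) ^ 4) -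
          15 * 0 * (0 ^ 3 + 0 ^ 2 * (3 / 8 * 0) + 0 * (3 / 8 * 0) ^ 2 + (3 / 8 * 0) ^ 3) +
        10 * 0 ^ 3 * (0 + 3 / 8 * 0)) =
        -80 * (3 / 8 - c * μ) * (eval (pt y 0) Y) ^ 2 := by ring
    rw [this]
    exact mul_ne_zero (mul_ne_zero (by norm_num) hμ) (pow_ne_zero _ eY)
  · simp only [map_mul, map_sub, map_pow, eval_C, hz, ezero]
    have : 25 / 16 * (eval (pt y 0) Y) - 1875 / 1024 * 0 ^ 2 =
      25 / 16 * (eval (pt y 0) Y) := by ring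
    rw [this]
    exact mul_ne_zero (by norm_num) eY
  · rw [hz, lz, pderiv0_lin, eval_C]
    exact hgc

theorem contact_id (x h Y0 Y1 Y2 z : ℝ)
    (P0 : 8*x^5 - 80*Y0*x^3 - 15*x^4 - 30*Y0*x^2 + 40*Y0^2*x - 15*Y0^2 + 10*x^2 + 10*Y0 - 3 = 0)
    (P1 : -80*Y1*x^3 + 40*x^4 + 80*Y0*Y1*x - 240*Y0*x^2 - 30*Y1*x^2 - 60*x^3 - 30*Y0*Y1 - 60*Y0*x
      + 40*Y0^2 + 10*Y1 + 20*x = 0)
    (P2 : -80*Y2*x^3 + 80*Y0*Y2*x - 240*Y1*x^2 + 40*Y1^2*x - 30*Y2*x^2 + 80*x^3 + 80*Y0*Y1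
      - 30*Y0*Y2 - 240*Y0*x - 60*Y1*x - 15*Y1^2 - 90*x^2 - 30*Y0 + 10*Y2 + 10 = 0) :
    PF (x * z + h) (Y0 * z ^ 2 + Y1 * h * z + Y2 * h ^ 2) z =
      ((80*Y1*Y2*x - 240*Y2*x^2 + 80*Y0*Y2 - 30*Y1*Y2 - 240*Y1*x + 40*Y1^2 - 60*Y2*x + 80*x^2
        - 80*Y0 - 30*Y1 - 60*x) * z ^ 2 +
      (40*Y2^2*x + 80*Y1*Y2 - 240*Y2*x - 15*Y2^2 - 80*Y1 - 30*Y2 + 40*x - 15) * h * z +
      (40*Y2^2 - 80*Y2 + 8) * h ^ 2) * h ^ 3 := by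
  unfold PF
  linear_combination z ^ 5 * P0 + h * z ^ 4 * P1 + h ^ 2 * z ^ 3 * P2

end Pool.Agent.W416.Cusp
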