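import Pool.Agent.W416.Cusp.Seed2

set_option autoImplicit false

namespace Pool.Agent.W416.Cusp

open MvPolynomial

theorem contact_seed {c x μ G Y0 Y1 Y2 : ℝ} (h : Data c x μ G Y0 Y1 Y2) {τ : ℝ} (hτ : 0 < τ)
    (root : ((x - μ) * (25 * G - 1) + 10 * (3 / 8 - c * x)) * τ ^ 2 +
      2 * (-(x - μ) * (25 * G) - 5 * (3 / 8 - c * x)) * τ + (x - μ) * (25 * G) = 0)
    (simple : ((x - μ) * (25 * G - 1) + 10 * (3 / 8 - c * x)) * τ +
      (-(x - μ) * (25 * G) - 5 * (3 / 8 - c * x)) ≠ 0) :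
    ContactAt (FF c μ (25 * G)) τ := by
  have hc := h.hc
  have c1 := h.c1
  have c2 := h.c2
  have m1 := h.m1
  have m2 := h.m2
  have hμ : 3 / 8 - c * μ ≠ 0 := by
    apply ne_of_gt
    nlinarith [mul_pos (show 0 < μ by linarith) (show 0 < -c by linarith)]
  obtain ⟨X', hX'⟩ : ∃ X' : MvPolynomial (Fin 2) ℝ, X' = lx μ (25 * G) := ⟨_, rfl⟩
  obtain ⟨z, hz⟩ : ∃ z : MvPolynomial (Fin 2) ℝ, z = lz c (25 * G) := ⟨_, rfl⟩
  obtain ⟨m, hm⟩ : ∃ m : MvPolynomial (Fin 2) ℝ, m = X' - C x * z := ⟨_, rfl⟩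
  obtain ⟨Y, hY⟩ : ∃ Y : MvPolynomial (Fin 2) ℝ,
    Y = C (8 / 5 * (1 - c)) * (le c μ (25 * G)) ^ 2 := ⟨_, rfl⟩
  obtain ⟨T, hT⟩ : ∃ T : MvPolynomial (Fin 2) ℝ,
    T = C Y0 * z ^ 2 + C Y1 * m * z + C Y2 * m ^ 2 := ⟨_, rfl⟩
  obtain ⟨K, hK⟩ : ∃ K : ℝ, K = -(8 / 5 * (1 - c)) * (3 / 8 - c * μ) ^ 2 * (25 * G) := ⟨_, rfl⟩
  have hK0 : K ≠ 0 := by
    rw [hK]
    have g1 := h.g1
    refine mul_ne_zero (mul_ne_zero (neg_ne_zero.2 (mul_ne_zero (by norm_num) ?_))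
      (pow_ne_zero _ hμ)) ?_
    · intro h0
      linarith
    · intro h0
      linarith
  have s1 : 8 / 5 * (1 - c) * ((3 + 2 * c) / 4) = 1 := by linear_combination (-1 / 5) * hc
  have hYT : Y - T = C K * Ga := by
    apply MvPolynomial.funext
    intro q
    have E0 := h.E0
    have E1 := h.E1
    have E2 := h.E2
    simp only [hY, hT, hm, hX', hz, Ga, map_sub, map_add, map_mul, map_pow, eval_C, eval_X, lx, le,
      lz, eval_lin]
    obtain ⟨zz, hzz⟩ : ∃ zz, zz = (1 - 25 * G + 10 * c) * q 1 + (25 * G - 5 * c) * q 0 +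
      -(25 * G) := ⟨_, rfl⟩
    obtain ⟨mm, hmm⟩ : ∃ mm, mm = (μ * (1 - 25 * G) + 15 / 4) * q 1 +
      (μ * (25 * G) - 15 / 8) * q 0 + -μ * (25 * G) - x * zz := ⟨_, rfl⟩
    rw [← hzz, ← hmm]
    have Y0e : Y0 = 8 / 5 * (1 - c) * ((3 / 8 - c * x) ^ 2 + G * (x - μ) ^ 2) := by
      rw [← E0]
      linear_combination (-Y0) * s1
    have Y1e : Y1 = 8 / 5 * (1 - c) * (-2 * c * (3 / 8 - c * x) + 2 * G * (x - μ)) := by
      rw [← E1]
      linear_combination (-Y1) * s1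
    have Y2e : Y2 = 8 / 5 * (1 - c) * (c ^ 2 + G) := by
      rw [← E2]
      linear_combination (-Y2) * s1
    rw [Y0e, Y1e, Y2e, hK]
    have e1 : 8 / 5 * (1 - c) * ((3 / 8 - c * x) ^ 2 + G * (x - μ) ^ 2) * zz ^ 2 +
        8 / 5 * (1 - c) * (-2 * c * (3 / 8 - c * x) + 2 * G * (x - μ)) * mm * zz +
        8 / 5 * (1 - c) * (c ^ 2 + G) * mm ^ 2 =
        8 / 5 * (1 - c) * ((3 / 8 * zz - c * (x * zz + mm)) ^ 2 +
          G * ((x * zz + mm) - μ * zz) ^ 2) := by ring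
    have e2 : x * zz + mm = (μ * (1 - 25 * G) + 15 / 4) * q 1 +
      (μ * (25 * G) - 15 / 8) * q 0 + -μ * (25 * G) := by
      rw [hmm]
      ring
    rw [e1, e2, hzz]
    ring
  have hF : FF c μ (25 * G) = PF X' Y z := by
    rw [hX', hY, hz]
    rfl
  have hPT : PF X' Y z = PF X' T z + (Y - T) * ((40 * X' - 15 * z) * (Y + T) +
      (-80 * X' ^ 3 - 30 * X' ^ 2 * z + 10 * z ^ 3)) := by
    unfold PF
    ring
  have q1 : eval (pt (2 * τ) (τ ^ 2)) m = 0 := by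
    rw [hm, hX', hz]
    simp only [map_sub, map_mul, eval_C, lx, lz, eval_lin, pt_zero, pt_one]
    linear_combination root
  have q2 : eval (pt (2 * τ) (τ ^ 2)) z ≠ 0 := by
    intro h0
    have hx0 : eval (pt (2 * τ) (τ ^ 2)) X' = 0 := by
      have : eval (pt (2 * τ) (τ ^ 2)) X' = eval (pt (2 * τ) (τ ^ 2)) m +
          x * eval (pt (2 * τ) (τ ^ 2)) z := by
        rw [hm]
        simp only [map_sub, map_mul, eval_C]
        ring
      rw [this, q1, h0]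
      ring
    rw [hX', lx, eval_lin, pt_zero, pt_one] at hx0
    rw [hz, lz, eval_lin, pt_zero, pt_one] at h0
    have e1 : (3 / 8 - c * μ) * (10 * τ * (τ - 1)) = 0 := by
      linear_combination hx0 - μ * h0
    rcases mul_eq_zero.1 e1 with e | e
    · exact hμ e
    · have e3 : τ = 1 := by
        rcases mul_eq_zero.1 e with e | e
        · linarith
        · linarith
      rw [e3] at h0
      linarith
  have hYTq : eval (pt (2 * τ) (τ ^ 2)) Y = eval (pt (2 * τ) (τ ^ 2)) T := by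
    have := congrArg (eval (pt (2 * τ) (τ ^ 2))) hYT
    simp only [map_sub, map_mul, eval_C, Ga, map_pow, eval_X, pt_zero, pt_one] at this
    linear_combination this
  have hTq : eval (pt (2 * τ) (τ ^ 2)) T = Y0 * eval (pt (2 * τ) (τ ^ 2)) z ^ 2 := by
    rw [hT]
    simp only [map_add, map_mul, map_pow, eval_C, q1]
    ring
  have hXq : eval (pt (2 * τ) (τ ^ 2)) X' = x * eval (pt (2 * τ) (τ ^ 2)) z := by
    have : eval (pt (2 * τ) (τ ^ 2)) X' = eval (pt (2 * τ) (τ ^ 2)) m +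
        x * eval (pt (2 * τ) (τ ^ 2)) z := by
      rw [hm]
      simp only [map_sub, map_mul, eval_C]
      ring
    rw [this, q1]
    ring
  refine ⟨C K * ((40 * X' - 15 * z) * (Y + T) +
      (-80 * X' ^ 3 - 30 * X' ^ 2 * z + 10 * z ^ 3)),
    C (80*Y1*Y2*x - 240*Y2*x^2 + 80*Y0*Y2 - 30*Y1*Y2 - 240*Y1*x + 40*Y1^2 - 60*Y2*x + 80*x^2
        - 80*Y0 - 30*Y1 - 60*x) * z ^ 2 +
      C (40*Y2^2*x + 80*Y1*Y2 - 240*Y2*x - 15*Y2^2 - 80*Y1 - 30*Y2 + 40*x - 15) * m * z +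
      C (40*Y2^2 - 80*Y2 + 8) * m ^ 2, m, ?_, q1, ?_, ?_, ?_⟩
  · rw [hF, hPT, hYT]
    have : PF X' T z = (C (80*Y1*Y2*x - 240*Y2*x^2 + 80*Y0*Y2 - 30*Y1*Y2 - 240*Y1*x + 40*Y1^2
        - 60*Y2*x + 80*x^2 - 80*Y0 - 30*Y1 - 60*x) * z ^ 2 +
      C (40*Y2^2*x + 80*Y1*Y2 - 240*Y2*x - 15*Y2^2 - 80*Y1 - 30*Y2 + 40*x - 15) * m * z +
      C (40*Y2^2 - 80*Y2 + 8) * m ^ 2) * m ^ 3 := by
      apply MvPolynomial.funext
      intro q
      have key := contact_id x (eval q m) Y0 Y1 Y2 (eval q z) h.P0 h.P1 h.P2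
      have e1 : eval q X' = x * eval q z + eval q m := by
        rw [hm]
        simp only [map_sub, map_mul, eval_C]
        ring
      have e2 : eval q T = Y0 * eval q z ^ 2 + Y1 * eval q m * eval q z + Y2 * eval q m ^ 2 := by
        rw [hT]
        simp only [map_add, map_mul, map_pow, eval_C]
      rw [eval_PF, e1, e2, key]
      simp only [map_mul, map_add, map_pow, eval_C]
    rw [this]
    ring
  · simp only [map_mul, map_add, map_sub, map_pow, eval_C, map_neg, map_ofNat, hYTq, hTq, hXq]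
    have : (40 * (x * (eval (pt (2 * τ) (τ ^ 2))) z) - 15 * (eval (pt (2 * τ) (τ ^ 2))) z) *
        (Y0 * (eval (pt (2 * τ) (τ ^ 2))) z ^ 2 + Y0 * (eval (pt (2 * τ) (τ ^ 2))) z ^ 2) +
        (-80 * (x * (eval (pt (2 * τ) (τ ^ 2))) z) ^ 3 -
          30 * (x * (eval (pt (2 * τ) (τ ^ 2))) z) ^ 2 * (eval (pt (2 * τ) (τ ^ 2))) z +
          10 * (eval (pt (2 * τ) (τ ^ 2))) z ^ 3) =
        10 * ((8 * x - 3) * Y0 - (8 * x ^ 3 + 3 * x ^ 2 - 1)) *
          (eval (pt (2 * τ) (τ ^ 2))) z ^ 3 := by ring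
    rw [this]
    exact mul_ne_zero hK0 (mul_ne_zero (mul_ne_zero (by norm_num) h.nA) (pow_ne_zero _ q2))
  · simp only [map_mul, map_add, map_pow, eval_C, q1]
    have := mul_ne_zero h.P3 (pow_ne_zero 2 q2)
    intro h0
    apply this
    linear_combination h0
  · rw [hm, hX', hz]
    simp only [map_sub, Derivation.leibniz, smul_eq_mul, pderiv_C, lx, lz,
      pderiv0_lin, pderiv1_lin, mul_zero, add_zero, map_mul, eval_C]
    intro h0
    apply simple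
    linear_combination h0

end Pool.Agent.W416.Cusp
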