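import Pool.Agent.W416.Cusp.Seed3
import Pool.Agent.W416.Cusp.Final

set_option autoImplicit false

namespace Pool.Agent.W416.Cusp

open MvPolynomial

/-- The roots of `t ^ 2 - s t + p`. -/
noncomputable def rt (s p : ℝ) : ℝ × ℝ := ((s - √(s ^ 2 - 4 * p)) / 2, (s + √(s ^ 2 - 4 * p)) / 2)

theorem rt_sum (s p : ℝ) : (rt s p).1 + (rt s p).2 = s := by
  simp only [rt]
  ring

theorem rt_prod {s p : ℝ} (h : 0 < s ^ 2 - 4 * p) : (rt s p).1 * (rt s p).2 = p := by
  have := Real.sq_sqrt h.le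
  simp only [rt]
  linear_combination (-1 / 4) * this

theorem rt_lt {s p : ℝ} (h : 0 < s ^ 2 - 4 * p) : (rt s p).1 < (rt s p).2 := by
  have := Real.sqrt_pos.2 h
  simp only [rt]
  linarith

theorem rt_pos {s p : ℝ} (h : 0 < s ^ 2 - 4 * p) (hs : 0 < s) (hp : 0 < p) : 0 < (rt s p).1 := by
  have h1 : √(s ^ 2 - 4 * p) < s := by
    rw [Real.sqrt_lt' hs]
    linarith
  simp only [rt]
  linarith

/-- The property of being a good cusp of the seed. -/
structure GC (F : MvPolynomial (Fin 2) ℝ) (s p : ℝ) : Prop where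
  cusp : CuspAt F (pt s p)
  s0 : 0 < s
  p0 : 0 < p
  d0 : 0 < s ^ 2 - 4 * p

theorem good_cusp {c a b e : ℝ} (h : Rot c a b e) (hc1 : 1 - c ≠ 0) {μ G u w v D : ℝ}
    (hu : u = 3 / 8 - c * a - b) (hw : w = -3 / 8 + c * a - b) (hv : v = 2 * (a - μ))
    (hD : D = 25 * G * (u - v / 5) + w) (hG : 0 < G) (hμ : 3 / 4 - 2 * c * μ ≠ 0)
    (h1 : 0 < u * D) (h2 : 0 < (2 * u - v / 5) * D) (h3 : 0 < G * v ^ 2 - 4 * u * w) :
    GC (FF c μ (25 * G)) (25 * G * (2 * u - v / 5) / D) (25 * G * u / D) := by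
  have hD0 : D ≠ 0 := by
    intro h0
    rw [h0, mul_zero] at h1
    exact lt_irrefl _ h1
  have hD2 : 0 < D ^ 2 := by positivity
  refine ⟨cusp_seed h hc1 hu hw hv hD hD0 (by positivity) hμ, ?_, ?_, ?_⟩
  · rw [show 25 * G * (2 * u - v / 5) / D = 25 * G * ((2 * u - v / 5) * D) / D ^ 2 by field_simp]
    positivity
  · rw [show 25 * G * u / D = 25 * G * (u * D) / D ^ 2 by field_simp]
    positivity
  · have : (25 * G * (2 * u - v / 5) / D) ^ 2 - 4 * (25 * G * u / D) =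
        25 * G * (G * v ^ 2 - 4 * u * w) / D ^ 2 := by
      field_simp
      rw [hD]
      ring
    rw [this]
    positivity

/-- `p` in terms of thresholds. -/
theorem p_lt {g u D t : ℝ} (hD : 0 < D) (h : g * u < t * D) : g * u / D < t := by
  rwa [div_lt_iff₀ hD]

theorem lt_p {g u D t : ℝ} (hD : 0 < D) (h : t * D < g * u) : t < g * u / D := by
  rwa [lt_div_iff₀ hD]

theorem lt_p' {g u D t : ℝ} (hD : D < 0) (h : g * u < t * D) : t < g * u / D := by
  rwa [lt_div_iff_of_neg hD]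

theorem five_of {F : MvPolynomial (Fin 2) ℝ} {s0 s1 s2 s3 s4 p0 p1 p2 p3 p4 : ℝ}
    (G0 : GC F s0 p0) (G1 : GC F s1 p1) (G2 : GC F s2 p2) (G3 : GC F s3 p3) (G4 : GC F s4 p4)
    (h0 : p0 < p1) (h1 : p1 < p2) (h2 : p2 < p3) (h3 : p3 < p4) :
    ∃ s p : Fin 5 → ℝ, StrictMono p ∧ ∀ i, GC F (s i) (p i) := by
  refine ⟨![s0, s1, s2, s3, s4], ![p0, p1, p2, p3, p4], ?_, ?_⟩
  · rw [Fin.strictMono_iff_lt_succ]
    intro i
    fin_cases i
    · exact h0
    · exact h1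
    · exact h2
    · exact h3
  · intro i
    fin_cases i
    · exact G0
    · exact G1
    · exact G2
    · exact G3
    · exact G4

theorem exists_five {c x μ G Y0 Y1 Y2 : ℝ} (h : Data c x μ G Y0 Y1 Y2) :
    ∃ s p : Fin 5 → ℝ, StrictMono p ∧ ∀ i, GC (FF c μ (25 * G)) (s i) (p i) := by
  have hc := h.hc
  have c1 := h.c1
  have c2 := h.c2
  have m1 := h.m1
  have m2 := h.m2
  have g1 := h.g1
  have g2 := h.g2
  have hG : 0 < G := by linarith
  have hc1 : 1 - c ≠ 0 := by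
    apply ne_of_gt
    linarith
  have hcμ : c * μ < 0 := mul_neg_of_neg_of_pos (by linarith) (by linarith)
  have hμ : 3 / 4 - 2 * c * μ ≠ 0 := by
    apply ne_of_gt
    linarith
  -- the five denominators
  have D0 : 0 < 25 * G * ((7 / 8 + c) - (2 * (c - μ)) / 5) + 5 / 8 := by
    have : 0 < (7 / 8 + c) - (2 * (c - μ)) / 5 := by linarith
    positivity
  have D1 : 0 < 25 * G * ((7 / 8 + c) - (2 * (-1 / 2 - c - μ)) / 5) + (-3 / 8 + c) := by
    have : 0.06 < (7 / 8 + c) - (2 * (-1 / 2 - c - μ)) / 5 := by linarith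
    nlinarith
  have D2 : 0 < 25 * G * ((3 / 8 - c) - (2 * (-1 / 2 - c - μ)) / 5) + (-7 / 8 - c) := by
    have : 1 < (3 / 8 - c) - (2 * (-1 / 2 - c - μ)) / 5 := by linarith
    nlinarith
  have D3 : 0 < 25 * G * ((3 / 8 - c) - (2 * (1 - μ)) / 5) + (-3 / 8 + c) := by
    have : 0.8 < (3 / 8 - c) - (2 * (1 - μ)) / 5 := by linarith
    nlinarith
  have D4 : 25 * G * ((-5 / 8) - (2 * (c - μ)) / 5) + (-7 / 8 - c) < 0 := by
    have : (-5 / 8) - (2 * (c - μ)) / 5 < -0.1 := by linarith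
    nlinarith
  have G0 : GC (FF c μ (25 * G)) _ _ := good_cusp (rot1 hc).neg hc1 (μ := μ) (G := G)
    (u := 7 / 8 + c) (w := 5 / 8) (v := 2 * (c - μ))
    (D := 25 * G * ((7 / 8 + c) - (2 * (c - μ)) / 5) + 5 / 8)
    (by linear_combination (1 / 4) * hc) (by linear_combination (-1 / 4) * hc) rfl rfl hG hμ
    (mul_pos (by linarith) D0) (mul_pos (by linarith) D0) (by nlinarith [mul_pos hG hG])
  have G1 : GC (FF c μ (25 * G)) _ _ := good_cusp (rot2 hc) hc1 (μ := μ) (G := G)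
    (u := 7 / 8 + c) (w := -3 / 8 + c) (v := 2 * (-1 / 2 - c - μ))
    (D := 25 * G * ((7 / 8 + c) - (2 * (-1 / 2 - c - μ)) / 5) + (-3 / 8 + c))
    (by linear_combination (-1 / 4) * hc) (by linear_combination (1 / 4) * hc) rfl rfl hG hμ
    (mul_pos (by linarith) D1) (mul_pos (by linarith) D1) (by
      have : 0 ≤ G * (2 * (-1 / 2 - c - μ)) ^ 2 := by positivity
      nlinarith)
  have G2 : GC (FF c μ (25 * G)) _ _ := good_cusp (rot2 hc).neg hc1 (μ := μ) (G := G)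
    (u := 3 / 8 - c) (w := -7 / 8 - c) (v := 2 * (-1 / 2 - c - μ))
    (D := 25 * G * ((3 / 8 - c) - (2 * (-1 / 2 - c - μ)) / 5) + (-7 / 8 - c))
    (by linear_combination (-1 / 4) * hc) (by linear_combination (1 / 4) * hc) rfl rfl hG hμ
    (mul_pos (by linarith) D2) (mul_pos (by linarith) D2) (by
      have : 0 ≤ G * (2 * (-1 / 2 - c - μ)) ^ 2 := by positivity
      nlinarith)
  have G3 : GC (FF c μ (25 * G)) _ _ := good_cusp (rot0 c) hc1 (μ := μ) (G := G)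
    (u := 3 / 8 - c) (w := -3 / 8 + c) (v := 2 * (1 - μ))
    (D := 25 * G * ((3 / 8 - c) - (2 * (1 - μ)) / 5) + (-3 / 8 + c))
    (by ring) (by ring) rfl rfl hG hμ
    (mul_pos (by linarith) D3) (mul_pos (by linarith) D3) (by
      have : 0 ≤ G * (2 * (1 - μ)) ^ 2 := by positivity
      nlinarith)
  have G4 : GC (FF c μ (25 * G)) _ _ := good_cusp (rot1 hc) hc1 (μ := μ) (G := G)
    (u := -5 / 8) (w := -7 / 8 - c) (v := 2 * (c - μ))
    (D := 25 * G * ((-5 / 8) - (2 * (c - μ)) / 5) + (-7 / 8 - c))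
    (by linear_combination (1 / 4) * hc) (by linear_combination (-1 / 4) * hc) rfl rfl hG hμ
    (mul_pos_of_neg_of_neg (by linarith) D4) (mul_pos_of_neg_of_neg (by linarith) D4) (by
      have : 1 ≤ (2 * (c - μ)) ^ 2 := by nlinarith
      nlinarith)
  refine five_of G0 G1 G2 G3 G4 ?_ ?_ ?_ ?_
  · refine (p_lt D0 (t := 1 / 2) ?_).trans (lt_p D1 ?_)
    · have : 0.1 < 1 / 2 * ((7 / 8 + c) - (2 * (c - μ)) / 5) - (7 / 8 + c) := by linarith
      nlinarith
    · have : 0.02 < (7 / 8 + c) - 1 / 2 * ((7 / 8 + c) - (2 * (-1 / 2 - c - μ)) / 5) := by linarith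
      nlinarith
  · refine (p_lt D1 (t := 0.96) ?_).trans (lt_p D2 ?_)
    · have : 0.004 < 0.96 * ((7 / 8 + c) - (2 * (-1 / 2 - c - μ)) / 5) - (7 / 8 + c) := by
        linarith
      nlinarith
    · have : 0.03 < (3 / 8 - c) - 0.96 * ((3 / 8 - c) - (2 * (-1 / 2 - c - μ)) / 5) := by
        linarith
      nlinarith
  · refine (p_lt D2 (t := 1) ?_).trans (lt_p D3 ?_)
    · have : 0.007 < 1 * ((3 / 8 - c) - (2 * (-1 / 2 - c - μ)) / 5) - (3 / 8 - c) := by
        linarith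
      nlinarith
    · have : 0.1 < (3 / 8 - c) - 1 * ((3 / 8 - c) - (2 * (1 - μ)) / 5) := by
        linarith
      nlinarith
  · refine (p_lt D3 (t := 2) ?_).trans (lt_p' D4 ?_)
    · have : 0.1 < 2 * ((3 / 8 - c) - (2 * (1 - μ)) / 5) - (3 / 8 - c) := by
        linarith
      nlinarith
    · have : 0.1 < 2 * ((-5 / 8) - (2 * (c - μ)) / 5) - (-5 / 8) := by
        linarith
      nlinarith

end Pool.Agent.W416.Cusp
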